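import Pool.Agent.Dyad4.Lat

/-!
# Facet functionals of the cone generated by the rows of `T` modulo the coordinates in `Z`
-/

set_option autoImplicit false
set_option linter.unusedSectionVars false
set_option linter.unusedVariables false

namespace Pool.Agent.Dyad4

open Finset

variable {ι α : Type*} [Fintype ι] [Fintype α] [DecidableEq ι] [DecidableEq α]

lemma ev_lin (x y : α → ℝ) (c : ℝ) (B : Finset α) :
    ev (fun a => x a + c * y a) B = ev x B + c * ev y B := by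
  unfold ev
  rw [sum_add_distrib, mul_sum]

lemma pr_lin (x y : α → ℝ) (c : ℝ) (v : α → ℤ) :
    pr (fun a => x a + c * y a) v = pr x v + c * pr y v := by
  unfold pr
  rw [mul_sum, ← sum_add_distrib]
  exact sum_congr rfl fun a _ => by ring

/-- facet functional: nonnegative and nonzero on `T`, with maximal zero set -/
structure Fac (S : ι → Finset α) (T : Finset ι) (Z : Finset α) (δ : α → ℝ) : Prop where
  zero : ∀ a ∈ Z, δ a = 0
  nonneg : ∀ i ∈ T, 0 ≤ ev δ (S i)
  ne : ∃ i ∈ T, 0 < ev δ (S i)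
  max : ∀ η : α → ℝ, (∀ a ∈ Z, η a = 0) → (∀ i ∈ T, 0 ≤ ev η (S i)) →
    (∃ i ∈ T, 0 < ev η (S i)) → (∀ i ∈ T, ev δ (S i) = 0 → ev η (S i) = 0) →
    ∀ i ∈ T, ev η (S i) = 0 → ev δ (S i) = 0

variable {S : ι → Finset α} {T : Finset ι} {Z : Finset α}

/-- a functional that vanishes on a facet is a multiple of the facet functional -/
theorem Fac.prop {δ : α → ℝ} (h : Fac S T Z δ) {η : α → ℝ} (hη : ∀ a ∈ Z, η a = 0)
    (hη' : ∀ i ∈ T, ev δ (S i) = 0 → ev η (S i) = 0) :
    ∃ c : ℝ, ∀ i ∈ T, ev η (S i) = c * ev δ (S i) := by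
  obtain ⟨i0, hi0, hd0⟩ := h.ne
  set c : ℝ := ev η (S i0) / ev δ (S i0) with hc
  refine ⟨c, ?_⟩
  by_contra hcon
  push Not at hcon
  obtain ⟨i1, hi1, hne⟩ := hcon
  -- a functional, zero at `i0`, zero on the facet, negative somewhere
  have main : ∀ ζ : α → ℝ, (∀ a ∈ Z, ζ a = 0) → (∀ i ∈ T, ev δ (S i) = 0 → ev ζ (S i) = 0) →
      ev ζ (S i0) = 0 → ev ζ (S i1) < 0 → False := by
    intro ζ h1 h2 h3 h4
    obtain ⟨i2, hi2, hmin⟩ := exists_min_image (T.filter fun i => ev ζ (S i) < 0)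
      (fun i => ev δ (S i) / (-ev ζ (S i))) ⟨i1, mem_filter.2 ⟨hi1, h4⟩⟩
    obtain ⟨hi2T, hi2n⟩ := mem_filter.1 hi2
    set s : ℝ := ev δ (S i2) / (-ev ζ (S i2)) with hs
    have hd2 : 0 < ev δ (S i2) := by
      rcases (h.nonneg i2 hi2T).lt_or_eq with h5 | h5
      · exact h5
      · have := h2 i2 hi2T h5.symm
        linarith
    have hs0 : 0 < s := div_pos hd2 (by linarith)
    have h6 := h.max (fun a => δ a + s * ζ a)
      (fun a ha => by simp [h.zero a ha, h1 a ha]) (by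
        intro i hi
        rw [ev_lin]
        by_cases hn : ev ζ (S i) < 0
        · have h7 := hmin i (mem_filter.2 ⟨hi, hn⟩)
          have h8 : s * (-ev ζ (S i)) ≤ ev δ (S i) := by
            rw [← le_div_iff₀ (by linarith)]
            exact h7
          linarith
        · push Not at hn
          have := h.nonneg i hi
          positivity) ⟨i0, hi0, by rw [ev_lin, h3]; linarith⟩ (by
        intro i hi h9
        rw [ev_lin, h9, h2 i hi h9]
        ring) i2 hi2T (by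
        rw [ev_lin, hs]
        have : ev ζ (S i2) ≠ 0 := hi2n.ne
        field_simp
        ring)
    linarith
  have hlin : ∀ i, ev (fun a => η a + (-c) * δ a) (S i) = ev η (S i) - c * ev δ (S i) := by
    intro i
    rw [ev_lin]
    ring
  have hlin' : ∀ i, ev (fun a => (-1 : ℝ) * η a + c * δ a) (S i)
      = -(ev η (S i) - c * ev δ (S i)) := by
    intro i
    rw [ev_lin]
    have : ev (fun a => (-1 : ℝ) * η a) (S i) = - ev η (S i) := by
      unfold ev
      rw [← mul_sum]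
      ring
    rw [this]
    ring
  have hz0 : ev η (S i0) - c * ev δ (S i0) = 0 := by
    rw [hc]
    field_simp
    ring
  rcases lt_or_gt_of_ne (sub_ne_zero.2 hne) with h5 | h5
  · refine main (fun a => η a + (-c) * δ a) (fun a ha => by simp [hη a ha, h.zero a ha]) ?_ ?_ ?_
    · intro i hi h6
      rw [hlin, h6, hη' i hi h6]
      ring
    · rw [hlin, hz0]
    · rw [hlin]
      exact h5
  · refine main (fun a => (-1 : ℝ) * η a + c * δ a) (fun a ha => by simp [hη a ha, h.zero a ha])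
      ?_ ?_ ?_
    · intro i hi h6
      rw [hlin', h6, hη' i hi h6]
      ring
    · rw [hlin', hz0]
      ring
    · rw [hlin']
      linarith

/-- existence of facet functionals that do not vanish at a given torsion vector -/
theorem Fac.exists {v : α → ℤ} (hv : Rep ⊤ S T Z v) {η₀ : α → ℝ} (h1 : ∀ a ∈ Z, η₀ a = 0)
    (h2 : ∀ i ∈ T, 0 ≤ ev η₀ (S i)) (h3 : pr η₀ v ≠ 0) :
    ∃ δ, Fac S T Z δ ∧ pr δ v ≠ 0 := by
  classical
  set FF : Set (α → ℝ) := {η | (∀ a ∈ Z, η a = 0) ∧ (∀ i ∈ T, 0 ≤ ev η (S i)) ∧ pr η v ≠ 0}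
    with hFF
  set f : (α → ℝ) → ℕ := fun η => (T.filter fun i => ev η (S i) ≠ 0).card with hf
  obtain ⟨η, hη, hmin⟩ := (measure f).wf.has_min FF ⟨η₀, h1, h2, h3⟩
  obtain ⟨e1, e2, e3⟩ := hη
  have hmin' : ∀ ζ ∈ FF, f η ≤ f ζ := fun ζ hζ => not_lt.1 (hmin ζ hζ)
  refine ⟨η, ⟨e1, e2, ?_, ?_⟩, e3⟩
  · by_contra hcon
    push Not at hcon
    exact e3 (hv.pr_eq_zero e1 fun i hi => le_antisymm (hcon i hi) (e2 i hi))
  · intro ζ z1 z2 z3 z4 i3 hi3 z5
    by_contra hne
    have hlt : ∀ θ : α → ℝ, (∀ i ∈ T, ev η (S i) = 0 → ev θ (S i) = 0) →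
        (∃ i ∈ T, ev η (S i) ≠ 0 ∧ ev θ (S i) = 0) → f θ < f η := by
      intro θ t1 ⟨i, hi, t2, t3⟩
      refine card_lt_card ?_
      rw [ssubset_iff_of_subset]
      · exact ⟨i, mem_filter.2 ⟨hi, t2⟩, fun h => (mem_filter.1 h).2 t3⟩
      · intro j hj
        obtain ⟨hj1, hj2⟩ := mem_filter.1 hj
        exact mem_filter.2 ⟨hj1, fun h => hj2 (t1 j hj1 h)⟩
    have hpz : pr ζ v = 0 := by
      by_contra hpz
      have := hmin' ζ ⟨z1, z2, hpz⟩
      have := hlt ζ z4 ⟨i3, hi3, hne, z5⟩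
      omega
    obtain ⟨i5, hi5, hp5⟩ := z3
    obtain ⟨i4, hi4, hm4⟩ := exists_min_image (T.filter fun i => 0 < ev ζ (S i))
      (fun i => ev η (S i) / ev ζ (S i)) ⟨i5, mem_filter.2 ⟨hi5, hp5⟩⟩
    obtain ⟨hi4T, hp4⟩ := mem_filter.1 hi4
    set s : ℝ := ev η (S i4) / ev ζ (S i4) with hs
    have hη4 : ev η (S i4) ≠ 0 := fun h => hp4.ne' (z4 i4 hi4T h)
    have hθ : ∀ i, ev (fun a => η a + (-s) * ζ a) (S i) = ev η (S i) - s * ev ζ (S i) := by
      intro i
      rw [ev_lin]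
      ring
    have hmem : (fun a => η a + (-s) * ζ a) ∈ FF := by
      refine ⟨fun a ha => by simp [e1 a ha, z1 a ha], fun i hi => ?_, ?_⟩
      · rw [hθ]
        by_cases hp : 0 < ev ζ (S i)
        · have h7 := hm4 i (mem_filter.2 ⟨hi, hp⟩)
          rw [le_div_iff₀ hp] at h7
          linarith
        · have : ev ζ (S i) = 0 := le_antisymm (not_lt.1 hp) (z2 i hi)
          rw [this]
          have := e2 i hi
          linarith
      · rw [pr_lin, hpz]
        simpa using e3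
    have h8 := hmin' _ hmem
    have h9 := hlt (fun a => η a + (-s) * ζ a) (by
      intro i hi h
      rw [hθ, h, z4 i hi h]
      ring) ⟨i4, hi4T, hη4, by
        rw [hθ, hs]
        field_simp
        ring⟩
    omega

/-- a torsion vector killed by a facet functional is torsion for the facet -/
theorem Fac.rep {δ : α → ℝ} (h : Fac S T Z δ) {v : α → ℤ} (hv : Rep ⊤ S T Z v)
    (h0 : pr δ v = 0) {T' : Finset ι} (hT' : ∀ i ∈ T, ev δ (S i) = 0 → i ∈ T') :
    Rep ⊤ S T' Z v := by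
  refine rep_of_ann fun η h1 h2 => ?_
  obtain ⟨c, hc⟩ := h.prop h1 fun i hi h3 => h2 i (hT' i hi h3)
  obtain ⟨k, hk, hk0, z, hz⟩ := hv
  have e1 := pr_rep h1 hz
  have e2 := pr_rep h.zero hz
  rw [h0, mul_zero] at e2
  have e3 : ∑ i ∈ T, (z i : ℝ) * ev η (S i) = c * ∑ i ∈ T, (z i : ℝ) * ev δ (S i) := by
    rw [mul_sum]
    refine sum_congr rfl fun i hi => ?_
    rw [hc i hi]
    ring
  rw [e3, ← e2, mul_zero] at e1
  have h2 : ((k : ℤ) : ℝ) ≠ 0 := by
    have : (k : ℤ) ≠ 0 := by omega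
    exact_mod_cast this
  exact (mul_eq_zero.1 e1).resolve_left h2

end Pool.Agent.Dyad4
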