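import Mathlib

/-!
# Integer combinations of rows modulo a set of coordinates
-/

set_option autoImplicit false
set_option linter.unusedSectionVars false
set_option linter.unusedVariables false

namespace Pool.Agent.Dyad4

open Finset

variable {ι α : Type*} [Fintype ι] [Fintype α] [DecidableEq ι] [DecidableEq α]

/-- value of a vector on a set -/
def ev (η : α → ℝ) (B : Finset α) : ℝ := ∑ a ∈ B, η a

/-- pairing of a real vector with an integer vector -/
def pr (η : α → ℝ) (v : α → ℤ) : ℝ := ∑ a, η a * v a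

/-- integer combination of the rows in `T` -/
def cmb (S : ι → Finset α) (T : Finset ι) (z : ι → ℤ) (a : α) : ℤ :=
  ∑ i ∈ T, if a ∈ S i then z i else 0

/-- some multiple `k v`, `k ∈ M`, is an integer combination of rows of `T` outside `Z` -/
def Rep (M : Submonoid ℕ) (S : ι → Finset α) (T : Finset ι) (Z : Finset α) (v : α → ℤ) : Prop :=
  ∃ k ∈ M, 0 < k ∧ ∃ z : ι → ℤ, ∀ a, a ∉ Z → (k : ℤ) * v a = cmb S T z a

/-- characteristic vector -/
def chi (B : Finset α) (a : α) : ℤ := if a ∈ B then 1 else 0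

variable {M M' : Submonoid ℕ} {S : ι → Finset α} {T T' : Finset ι} {Z Z' : Finset α}
  {v v' : α → ℤ}

lemma cmb_add (z z' : ι → ℤ) (a : α) :
    cmb S T (fun i => z i + z' i) a = cmb S T z a + cmb S T z' a := by
  unfold cmb
  rw [← sum_add_distrib]
  refine sum_congr rfl fun i _ => ?_
  split_ifs <;> simp

lemma cmb_mul (c : ℤ) (z : ι → ℤ) (a : α) :
    cmb S T (fun i => c * z i) a = c * cmb S T z a := by
  unfold cmb
  rw [mul_sum]
  refine sum_congr rfl fun i _ => ?_
  split_ifs <;> simp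

lemma cmb_subset (h : T ⊆ T') (z : ι → ℤ) (a : α) :
    cmb S T' (fun i => if i ∈ T then z i else 0) a = cmb S T z a := by
  unfold cmb
  symm
  rw [← sum_subset h]
  · refine sum_congr rfl fun i hi => ?_
    simp [hi]
  · intro i _ hi
    simp [hi]

lemma Rep.add (h : Rep M S T Z v) (h' : Rep M S T Z v') : Rep M S T Z (fun a => v a + v' a) := by
  obtain ⟨k, hk, hk0, z, hz⟩ := h
  obtain ⟨k', hk', hk0', z', hz'⟩ := h'
  refine ⟨k * k', M.mul_mem hk hk', Nat.mul_pos hk0 hk0',
    fun i => (k' : ℤ) * z i + (k : ℤ) * z' i, fun a ha => ?_⟩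
  rw [cmb_add, cmb_mul, cmb_mul, ← hz a ha, ← hz' a ha]
  push_cast
  ring

lemma Rep.smul (c : ℤ) (h : Rep M S T Z v) : Rep M S T Z (fun a => c * v a) := by
  obtain ⟨k, hk, hk0, z, hz⟩ := h
  refine ⟨k, hk, hk0, fun i => c * z i, fun a ha => ?_⟩
  rw [cmb_mul, ← hz a ha]
  ring

lemma Rep.congr (h : Rep M S T Z v) (hv : ∀ a, a ∉ Z → v' a = v a) : Rep M S T Z v' := by
  obtain ⟨k, hk, hk0, z, hz⟩ := h
  refine ⟨k, hk, hk0, z, fun a ha => ?_⟩
  rw [hv a ha, hz a ha]

lemma Rep.of_mul {k : ℕ} (hk : k ∈ M) (hk0 : 0 < k) (h : Rep M S T Z (fun a => (k : ℤ) * v a)) :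
    Rep M S T Z v := by
  obtain ⟨k', hk', hk0', z, hz⟩ := h
  refine ⟨k' * k, M.mul_mem hk' hk, Nat.mul_pos hk0' hk0, z, fun a ha => ?_⟩
  rw [← hz a ha]
  push_cast
  ring

lemma Rep.mono_T (hT : T ⊆ T') (h : Rep M S T Z v) : Rep M S T' Z v := by
  obtain ⟨k, hk, hk0, z, hz⟩ := h
  exact ⟨k, hk, hk0, fun i => if i ∈ T then z i else 0, fun a ha => by
    rw [cmb_subset hT, hz a ha]⟩

lemma Rep.mono_Z (hZ : Z ⊆ Z') (h : Rep M S T Z v) : Rep M S T Z' v := by
  obtain ⟨k, hk, hk0, z, hz⟩ := h
  exact ⟨k, hk, hk0, z, fun a ha => hz a fun h => ha (hZ h)⟩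

lemma Rep.mono_M (hM : M ≤ M') (h : Rep M S T Z v) : Rep M' S T Z v := by
  obtain ⟨k, hk, hk0, z, hz⟩ := h
  exact ⟨k, hM hk, hk0, z, hz⟩

lemma Rep.top (h : Rep M S T Z v) : Rep ⊤ S T Z v := h.mono_M le_top

lemma Rep.of_supp (h : ∀ a, a ∉ Z → v a = 0) : Rep M S T Z v :=
  ⟨1, M.one_mem, one_pos, fun _ => 0, fun a ha => by simp [h a ha, cmb]⟩

lemma Rep.row {i : ι} (hi : i ∈ T) : Rep M S T Z (chi (S i)) := by
  refine ⟨1, M.one_mem, one_pos, fun j => if j = i then 1 else 0, fun a _ => ?_⟩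
  unfold cmb chi
  rw [sum_eq_single i]
  · simp
  · intro j _ hj
    simp [hj]
  · intro h
    exact absurd hi h

lemma Rep.sub (h : Rep M S T Z v) (h' : Rep M S T Z v') : Rep M S T Z (fun a => v a - v' a) :=
  (h.add (h'.smul (-1))).congr fun a _ => by ring

lemma Rep.sum {κ : Type*} (s : Finset κ) (f : κ → α → ℤ) (h : ∀ k ∈ s, Rep M S T Z (f k)) :
    Rep M S T Z (fun a => ∑ k ∈ s, f k a) := by
  classical
  induction s using Finset.induction_on with
  | empty => exact Rep.of_supp fun a _ => by simp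
  | insert k s hk ih =>
    refine ((h k (mem_insert_self _ _)).add (ih fun j hj => h j (mem_insert_of_mem hj))).congr ?_
    intro a _
    rw [sum_insert hk]

lemma pr_add (η : α → ℝ) (v v' : α → ℤ) : pr η (fun a => v a + v' a) = pr η v + pr η v' := by
  unfold pr
  rw [← sum_add_distrib]
  refine sum_congr rfl fun a _ => ?_
  push_cast
  ring

lemma pr_sub (η : α → ℝ) (v v' : α → ℤ) : pr η (fun a => v a - v' a) = pr η v - pr η v' := by
  unfold pr
  rw [← sum_sub_distrib]
  refine sum_congr rfl fun a _ => ?_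
  push_cast
  ring

lemma pr_smul (η : α → ℝ) (c : ℤ) (v : α → ℤ) : pr η (fun a => c * v a) = c * pr η v := by
  unfold pr
  rw [mul_sum]
  refine sum_congr rfl fun a _ => ?_
  push_cast
  ring

lemma pr_chi (η : α → ℝ) (B : Finset α) : pr η (chi B) = ev η B := by
  unfold pr chi ev
  rw [← sum_filter_add_sum_filter_not univ (fun a => a ∈ B)]
  rw [sum_eq_zero (s := univ.filter fun a => a ∉ B) (fun a ha => by simp [(mem_filter.1 ha).2]),
    add_zero]
  have : univ.filter (fun a => a ∈ B) = B := by ext a; simp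
  rw [this]
  refine sum_congr rfl fun a ha => ?_
  simp [ha]

/-- pairing of a functional vanishing on `Z` with a represented vector -/
lemma pr_rep {η : α → ℝ} (hη : ∀ a ∈ Z, η a = 0) {k : ℤ} {z : ι → ℤ}
    (hz : ∀ a, a ∉ Z → k * v a = cmb S T z a) :
    k * pr η v = ∑ i ∈ T, (z i : ℝ) * ev η (S i) := by
  unfold pr ev
  rw [mul_sum]
  have h1 : ∀ a, (k : ℝ) * (η a * v a) = ∑ i ∈ T, if a ∈ S i then (z i : ℝ) * η a else 0 := by
    intro a
    by_cases ha : a ∈ Z
    · rw [hη a ha]
      simp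
    · have h2 := hz a ha
      have h3 : ((k * v a : ℤ) : ℝ) = ((cmb S T z a : ℤ) : ℝ) := by rw [h2]
      unfold cmb at h3
      push_cast at h3
      calc (k : ℝ) * (η a * v a) = η a * ((k : ℝ) * v a) := by ring
        _ = η a * ∑ i ∈ T, (if a ∈ S i then (z i : ℝ) else 0) := by rw [h3]
        _ = _ := by
          rw [mul_sum]
          refine sum_congr rfl fun i _ => ?_
          split_ifs <;> ring
  rw [sum_congr rfl fun a _ => h1 a, sum_comm]
  refine sum_congr rfl fun i _ => ?_
  rw [← sum_filter, mul_sum]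
  refine sum_congr ?_ fun _ _ => rfl
  ext a
  simp

/-- functionals that vanish on the rows and on `Z` vanish on torsion vectors -/
lemma Rep.pr_eq_zero (h : Rep M S T Z v) {η : α → ℝ} (hη : ∀ a ∈ Z, η a = 0)
    (hη' : ∀ i ∈ T, ev η (S i) = 0) : pr η v = 0 := by
  obtain ⟨k, hk, hk0, z, hz⟩ := h
  have h1 := pr_rep hη hz
  rw [sum_eq_zero fun i hi => by rw [hη' i hi, mul_zero]] at h1
  have h2 : ((k : ℤ) : ℝ) ≠ 0 := by
    have : (k : ℤ) ≠ 0 := by omega
    exact_mod_cast this
  exact (mul_eq_zero.1 h1).resolve_left h2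

/-- double annihilator: if every functional that vanishes on the rows of `T` and on `Z` kills `v`
then a multiple of `v` is an integer combination of the rows outside `Z` -/
theorem rep_of_ann (h : ∀ η : α → ℝ, (∀ a ∈ Z, η a = 0) → (∀ i ∈ T, ev η (S i) = 0) → pr η v = 0) :
    Rep ⊤ S T Z v := by
  classical
  set u : α → ℚ := fun a => if a ∈ Z then 0 else (v a : ℚ) with hu
  set s : ι → α → ℚ := fun i a => if a ∈ Z then 0 else if a ∈ S i then 1 else 0 with hs
  have hmem : u ∈ Submodule.span ℚ (s '' (T : Set ι)) := by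
    by_contra hcon
    obtain ⟨f, hf1, hf2⟩ := Submodule.exists_dual_map_eq_bot_of_notMem hcon inferInstance
    have hf3 : ∀ i ∈ T, f (s i) = 0 := by
      intro i hi
      have : f (s i) ∈ (Submodule.span ℚ (s '' (T : Set ι))).map f :=
        Submodule.mem_map_of_mem (Submodule.subset_span ⟨i, hi, rfl⟩)
      rw [hf2] at this
      exact (Submodule.mem_bot ℚ).1 this
    have hfe : ∀ w : α → ℚ, f w = ∑ a, w a * f (Pi.single a 1) := by
      intro w
      conv_lhs => rw [← Finset.univ_sum_single w]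
      rw [map_sum]
      refine sum_congr rfl fun a _ => ?_
      have : (Pi.single a (w a) : α → ℚ) = w a • Pi.single a 1 := by
        rw [← Pi.single_smul]
        simp
      rw [this, map_smul, smul_eq_mul]
    apply hf1
    have h1 := h (fun a => if a ∈ Z then 0 else ((f (Pi.single a 1) : ℚ) : ℝ))
      (fun a ha => by simp [ha]) (by
        intro i hi
        have h2 := hf3 i hi
        rw [hfe] at h2
        unfold ev
        have h3 : ∑ a ∈ S i, (if a ∈ Z then (0 : ℝ) else ((f (Pi.single a 1) : ℚ) : ℝ))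
            = ((∑ a, s i a * f (Pi.single a 1) : ℚ) : ℝ) := by
          push_cast
          rw [← sum_subset (subset_univ (S i))]
          · refine sum_congr rfl fun a ha => ?_
            simp only [hs, ha, if_true]
            split_ifs <;> simp
          · intro a _ ha
            simp only [hs, ha, if_false]
            split_ifs <;> simp
        rw [h3, h2]
        simp)
    rw [hfe]
    have h4 : ((∑ a, u a * f (Pi.single a 1) : ℚ) : ℝ) = 0 := by
      rw [← h1]
      unfold pr
      push_cast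
      refine sum_congr rfl fun a _ => ?_
      simp only [hu]
      split_ifs
      · simp
      · push_cast
        ring
    exact_mod_cast h4
  rw [Submodule.mem_span_image_finset_iff_exists_fun'] at hmem
  obtain ⟨c, hc⟩ := hmem
  obtain ⟨b, hb⟩ := IsLocalization.exist_integer_multiples (nonZeroDivisors ℤ) T c
  have hb0 : (b : ℤ) ≠ 0 := nonZeroDivisors.coe_ne_zero b
  choose! w hw using hb
  -- make the multiplier positive
  have key : ∀ a, a ∉ Z → (b : ℤ) * v a = cmb S T w a := by
    intro a ha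
    have h5 := congrFun hc a
    simp only [hu, ha, if_false, Finset.sum_apply, Pi.smul_apply, smul_eq_mul, hs] at h5
    have h6 : ((b : ℤ) : ℚ) * v a = ((cmb S T w a : ℤ) : ℚ) := by
      rw [← h5, mul_sum]
      unfold cmb
      push_cast
      refine sum_congr rfl fun i hi => ?_
      have h7 := hw i hi
      simp only [algebraMap_int_eq, eq_intCast, Algebra.smul_def] at h7
      split_ifs
      · rw [h7]
        ring
      · ring
    exact_mod_cast h6
  refine ⟨(b : ℤ).natAbs, Submonoid.mem_top _, Int.natAbs_pos.2 hb0, fun i => (b : ℤ).sign * w i,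
    fun a ha => ?_⟩
  rw [cmb_mul, ← key a ha]
  have h8 : ((b : ℤ).natAbs : ℤ) = (b : ℤ).sign * (b : ℤ) := (Int.sign_mul_self_eq_natAbs _).symm
  rw [h8]
  ring

end Pool.Agent.Dyad4
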