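import Pool.Agent.Dyad4.Round

/-!
# A strictly complementary dual solution for an ideal clutter
-/

set_option autoImplicit false
set_option linter.unusedSectionVars false
set_option linter.unusedVariables false

namespace Pool.Agent.Dyad4

open Finset Filter Topology

variable {ι α : Type*} [Fintype ι] [Fintype α] [DecidableEq ι] [DecidableEq α]
  {S : ι → Finset α} {N : Submonoid ℕ}

/-- minimum weight cover -/
def MinC (S : ι → Finset α) (w : α → ℤ) (B : Finset α) : Prop :=
  Cov S B ∧ ∀ B', Cov S B' → ∑ a ∈ B, w a ≤ ∑ a ∈ B', w a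

/-- the minimum weight covers -/
noncomputable def minCs (S : ι → Finset α) (w : α → ℤ) : Finset (Finset α) :=
  open Classical in univ.filter fun B => MinC S w B

lemma mem_minCs {w : α → ℤ} {B : Finset α} : B ∈ minCs S w ↔ MinC S w B := by
  unfold minCs
  simp

lemma minCs_nonempty (hrow : ∀ i, (S i).Nonempty) (w : α → ℤ) : (minCs S w).Nonempty := by
  classical
  have h1 : (univ.filter fun B : Finset α => Cov S B).Nonempty :=
    ⟨univ, by
      rw [mem_filter]
      exact ⟨mem_univ _, fun i => by rw [univ_inter]; exact hrow i⟩⟩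
  obtain ⟨B, hB, hmin⟩ := exists_min_image _ (fun B : Finset α => ∑ a ∈ B, w a) h1
  exact ⟨B, mem_minCs.2 ⟨(mem_filter.1 hB).2, fun B' hB' =>
    hmin B' (mem_filter.2 ⟨mem_univ _, hB'⟩)⟩⟩

/-- average of the minimum weight covers plus the indicator of the elements of weight zero -/
noncomputable def avg (S : ι → Finset α) (w : α → ℤ) (a : α) : ℝ :=
  (∑ B ∈ minCs S w, (if a ∈ B then (1 : ℝ) else 0)) / (minCs S w).card +
    if w a = 0 then 1 else 0

/-- tight rows of `avg` -/
noncomputable def TT (S : ι → Finset α) (w : α → ℤ) : Finset ι :=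
  open Classical in univ.filter fun i => ev (avg S w) (S i) = 1

/-- zero coordinates of `avg` -/
noncomputable def ZZ (S : ι → Finset α) (w : α → ℤ) : Finset α :=
  open Classical in univ.filter fun a => avg S w a = 0

lemma mem_TT {w : α → ℤ} {i : ι} : i ∈ TT S w ↔ ev (avg S w) (S i) = 1 := by
  unfold TT
  simp

lemma mem_ZZ {w : α → ℤ} {a : α} : a ∈ ZZ S w ↔ avg S w a = 0 := by
  unfold ZZ
  simp

variable {w : α → ℤ}

lemma avg_nonneg (a : α) : 0 ≤ avg S w a := by
  unfold avg
  refine add_nonneg (div_nonneg (sum_nonneg fun B _ => ?_) (Nat.cast_nonneg _)) ?_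
  · split_ifs <;> norm_num
  · split_ifs <;> norm_num

lemma mem_ZZ_iff (hrow : ∀ i, (S i).Nonempty) {a : α} :
    a ∈ ZZ S w ↔ w a ≠ 0 ∧ ∀ B, MinC S w B → a ∉ B := by
  classical
  have hc : (0 : ℝ) < ((minCs S w).card : ℝ) := by
    exact_mod_cast (minCs_nonempty hrow w).card_pos
  have hnn : 0 ≤ ∑ B ∈ minCs S w, (if a ∈ B then (1 : ℝ) else 0) := sum_nonneg fun B _ => by
    split_ifs <;> norm_num
  rw [mem_ZZ]
  unfold avg
  constructor
  · intro h
    have h1 : 0 ≤ (∑ B ∈ minCs S w, (if a ∈ B then (1 : ℝ) else 0)) / (minCs S w).card :=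
      div_nonneg hnn hc.le
    have h2 : w a ≠ 0 := by
      intro h2
      rw [if_pos h2] at h
      linarith
    refine ⟨h2, fun B hB haB => ?_⟩
    rw [if_neg h2, add_zero, div_eq_zero_iff] at h
    rcases h with h | h
    · have := (sum_eq_zero_iff_of_nonneg (fun B _ => by split_ifs <;> norm_num)).1 h B
        (mem_minCs.2 hB)
      rw [if_pos haB] at this
      exact one_ne_zero this
    · exact hc.ne' h
  · rintro ⟨h1, h2⟩
    rw [if_neg h1, add_zero, sum_eq_zero, zero_div]
    intro B hB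
    rw [if_neg (h2 B (mem_minCs.1 hB))]

lemma ev_avg (i : ι) : ev (avg S w) (S i) =
    (∑ B ∈ minCs S w, ((B ∩ S i).card : ℝ)) / (minCs S w).card +
      (((S i).filter fun a => w a = 0).card : ℝ) := by
  classical
  unfold ev avg
  rw [sum_add_distrib, ← sum_div, sum_comm]
  congr 2
  · refine sum_congr rfl fun B _ => ?_
    rw [← sum_filter, sum_const, nsmul_eq_mul, mul_one]
    congr 2
    ext a
    simp [and_comm]
  · rw [← sum_filter, sum_const, nsmul_eq_mul, mul_one]

lemma one_le_ev_avg (hrow : ∀ i, (S i).Nonempty) (i : ι) : 1 ≤ ev (avg S w) (S i) := by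
  have hc : (0 : ℝ) < ((minCs S w).card : ℝ) := by
    exact_mod_cast (minCs_nonempty hrow w).card_pos
  rw [ev_avg]
  have h1 : 1 ≤ (∑ B ∈ minCs S w, ((B ∩ S i).card : ℝ)) / (minCs S w).card := by
    rw [le_div_iff₀ hc, one_mul]
    calc ((minCs S w).card : ℝ) = ∑ B ∈ minCs S w, (1 : ℝ) := by simp
      _ ≤ _ := by
        refine sum_le_sum fun B hB => ?_
        have := ((mem_minCs.1 hB).1 i).card_pos
        exact_mod_cast this
  have h2 : (0 : ℝ) ≤ (((S i).filter fun a => w a = 0).card : ℝ) := Nat.cast_nonneg _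
  linarith

lemma TT_spec (hrow : ∀ i, (S i).Nonempty) {i : ι} (hi : i ∈ TT S w) :
    (∀ B, MinC S w B → (B ∩ S i).card = 1) ∧ ∀ a ∈ S i, w a ≠ 0 := by
  have hc : (0 : ℝ) < ((minCs S w).card : ℝ) := by
    exact_mod_cast (minCs_nonempty hrow w).card_pos
  rw [mem_TT, ev_avg] at hi
  have h1 : 1 ≤ (∑ B ∈ minCs S w, ((B ∩ S i).card : ℝ)) / (minCs S w).card := by
    rw [le_div_iff₀ hc, one_mul]
    calc ((minCs S w).card : ℝ) = ∑ B ∈ minCs S w, (1 : ℝ) := by simp
      _ ≤ _ := by
        refine sum_le_sum fun B hB => ?_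
        have := ((mem_minCs.1 hB).1 i).card_pos
        exact_mod_cast this
  have h2 : (0 : ℝ) ≤ (((S i).filter fun a => w a = 0).card : ℝ) := Nat.cast_nonneg _
  have h3 : (((S i).filter fun a => w a = 0).card : ℝ) = 0 := by linarith
  have h4 : (∑ B ∈ minCs S w, ((B ∩ S i).card : ℝ)) / (minCs S w).card = 1 := by linarith
  constructor
  · intro B hB
    rw [div_eq_one_iff_eq hc.ne'] at h4
    have h5 : ∑ B ∈ minCs S w, (((B ∩ S i).card : ℝ) - 1) = 0 := by
      rw [sum_sub_distrib, h4]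
      simp
    have h6 := (sum_eq_zero_iff_of_nonneg (fun B hB => by
      have := ((mem_minCs.1 hB).1 i).card_pos
      have h7 : (1 : ℝ) ≤ ((B ∩ S i).card : ℝ) := by exact_mod_cast this
      linarith)).1 h5 B (mem_minCs.2 hB)
    have h7 : ((B ∩ S i).card : ℝ) = 1 := by linarith
    exact_mod_cast h7
  · intro a ha haw
    have h5 : ((S i).filter fun a => w a = 0).card = 0 := by exact_mod_cast h3
    rw [card_eq_zero] at h5
    have : a ∈ (S i).filter fun a => w a = 0 := mem_filter.2 ⟨ha, haw⟩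
    rw [h5] at this
    exact absurd this (notMem_empty a)

/-- `avg` is a point with tight rows `TT` and zero set `ZZ` -/
theorem pat_avg (hrow : ∀ i, (S i).Nonempty) : Pat S (TT S w) (ZZ S w) (avg S w) := by
  refine ⟨fun a ha => mem_ZZ.1 ha, fun a ha => ?_, fun i hi => mem_TT.1 hi, fun i hi => ?_⟩
  · exact lt_of_le_of_ne (avg_nonneg a) fun h => ha (mem_ZZ.2 h.symm)
  · exact lt_of_le_of_ne (one_le_ev_avg hrow i) fun h => hi (mem_TT.2 h.symm)

/-- the weight of `avg` -/
lemma sum_avg (hrow : ∀ i, (S i).Nonempty) {B0 : Finset α} (hB0 : MinC S w B0) :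
    ∑ a, (w a : ℝ) * avg S w a = ∑ a ∈ B0, (w a : ℝ) := by
  classical
  have hc : (0 : ℝ) < ((minCs S w).card : ℝ) := by
    exact_mod_cast (minCs_nonempty hrow w).card_pos
  have h1 : ∀ a, (w a : ℝ) * avg S w a
      = (∑ B ∈ minCs S w, (if a ∈ B then (w a : ℝ) else 0)) / (minCs S w).card := by
    intro a
    unfold avg
    rw [mul_add, mul_div_assoc', mul_sum]
    have h2 : (w a : ℝ) * (if w a = 0 then 1 else 0) = 0 := by
      split_ifs with h
      · rw [h]
        simp
      · rw [mul_zero]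
    rw [h2, add_zero]
    congr 1
    refine sum_congr rfl fun B _ => ?_
    split_ifs <;> simp
  rw [sum_congr rfl fun a _ => h1 a, ← sum_div, sum_comm, div_eq_iff hc.ne']
  have h3 : ∀ B ∈ minCs S w, ∑ a, (if a ∈ B then (w a : ℝ) else 0) = ∑ a ∈ B0, (w a : ℝ) := by
    intro B hB
    have h4 : ∑ a, (if a ∈ B then (w a : ℝ) else 0) = ∑ a ∈ B, (w a : ℝ) := by
      rw [← sum_filter]
      congr 1
      ext a
      simp
    rw [h4]
    have h5 : ∑ a ∈ B, w a = ∑ a ∈ B0, w a :=
      le_antisymm ((mem_minCs.1 hB).2 B0 hB0.1) (hB0.2 B (mem_minCs.1 hB).1)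
    exact_mod_cast h5
  rw [sum_congr rfl h3, sum_const, nsmul_eq_mul, mul_comm]

/-- weak duality with equality analysis: value of `y` against a point of the polyhedron -/
lemma dual_sum (y x : ι → ℝ) (u : α → ℝ) :
    ∑ a, u a * ∑ i, (if a ∈ S i then y i else 0) = ∑ i, y i * ev u (S i) := by
  simp_rw [mul_sum]
  rw [sum_comm]
  refine sum_congr rfl fun i _ => ?_
  unfold ev
  rw [mul_sum]
  have h : ∑ a ∈ S i, y i * u a = ∑ a, (if a ∈ S i then y i * u a else 0) := by
    rw [← sum_filter]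
    congr 1
    ext a
    simp
  rw [h]
  refine sum_congr rfl fun a _ => ?_
  split_ifs <;> ring

/-- **Strictly complementary solution.** -/
theorem exists_strict (hrow : ∀ i, (S i).Nonempty) (hw : ∀ a, 0 ≤ w a)
    (hpack : ∀ (w' : α → ℝ) (t : ℝ), (∀ a, 0 ≤ w' a) → (∀ B, Cov S B → t ≤ ev w' B) →
      ∃ y : ι → ℝ, (∀ i, 0 ≤ y i) ∧ (∀ a, ∑ i, (if a ∈ S i then y i else 0) ≤ w' a) ∧
        t ≤ ∑ i, y i) :
    ∃ (ys : ι → ℝ) (ε : ℝ), 0 < ε ∧ (∀ i ∈ TT S w, ε ≤ ys i) ∧ (∀ i, i ∉ TT S w → ys i = 0) ∧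
      (∀ a, a ∉ ZZ S w → ∑ i, (if a ∈ S i then ys i else 0) = w a) ∧
      ∀ a ∈ ZZ S w, ∑ i, (if a ∈ S i then ys i else 0) ≤ w a - ε := by
  classical
  obtain ⟨B0, hB0⟩ := minCs_nonempty hrow w
  rw [mem_minCs] at hB0
  set t : ℝ := ∑ a ∈ B0, (w a : ℝ) with ht
  set ι' : ℝ := (Fintype.card ι : ℝ) with hι
  set α' : ℝ := (Fintype.card α : ℝ) with hα
  have hι0 : 0 ≤ ι' := Nat.cast_nonneg _
  have hα0 : 0 ≤ α' := Nat.cast_nonneg _
  set ε : ℝ := 1 / ((ι' + 1) * (α' + 1)) with hε
  have hden : 0 < (ι' + 1) * (α' + 1) := by positivity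
  have hε0 : 0 < ε := by positivity
  have hε1 : ε * ((ι' + 1) * (α' + 1)) = 1 := by
    rw [hε]
    field_simp
  set T := TT S w with hT
  set Z := ZZ S w with hZ
  have hTc : (T.card : ℝ) ≤ ι' := by
    rw [hι]
    exact_mod_cast card_le_univ T
  have hCc : ∀ C : Finset α, (C.card : ℝ) ≤ α' := fun C => by
    rw [hα]
    exact_mod_cast card_le_univ C
  -- the modified weights
  set w' : α → ℝ := fun a => w a - ε * ((∑ i ∈ T, if a ∈ S i then (1 : ℝ) else 0)
    + if a ∈ Z then 1 else 0) with hw'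
  have hcnt : ∀ a, (∑ i ∈ T, if a ∈ S i then (1 : ℝ) else 0) ≤ ι' := by
    intro a
    calc (∑ i ∈ T, if a ∈ S i then (1 : ℝ) else 0) ≤ ∑ i ∈ T, (1 : ℝ) :=
          sum_le_sum fun i _ => by split_ifs <;> norm_num
      _ = (T.card : ℝ) := by simp
      _ ≤ _ := hTc
  have hw'0 : ∀ a, 0 ≤ w' a := by
    intro a
    by_cases ha : w a = 0
    · have h1 : a ∉ Z := fun h => ((mem_ZZ_iff hrow).1 h).1 ha
      have h2 : (∑ i ∈ T, if a ∈ S i then (1 : ℝ) else 0) = 0 := by
        refine sum_eq_zero fun i hi => ?_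
        rw [if_neg]
        intro h
        exact (TT_spec hrow hi).2 a h ha
      show (0 : ℝ) ≤ w a - ε * ((∑ i ∈ T, if a ∈ S i then (1 : ℝ) else 0)
        + if a ∈ Z then 1 else 0)
      rw [h2, if_neg h1, ha]
      simp
    · have h1 : (1 : ℝ) ≤ w a := by
        have : 1 ≤ w a := by have := hw a; omega
        exact_mod_cast this
      have h2 : ((∑ i ∈ T, if a ∈ S i then (1 : ℝ) else 0) + if a ∈ Z then 1 else 0) ≤ ι' + 1 := by
        have := hcnt a
        split_ifs <;> linarith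
      have h3 : ε * ((∑ i ∈ T, if a ∈ S i then (1 : ℝ) else 0) + if a ∈ Z then 1 else 0)
          ≤ ε * (ι' + 1) := mul_le_mul_of_nonneg_left h2 hε0.le
      have h4 : ε * (ι' + 1) ≤ 1 := by
        rw [← hε1]
        have : 0 ≤ ε * ((ι' + 1) * α') := by positivity
        nlinarith
      simp only [hw']
      linarith
  have hw'B : ∀ B : Finset α, ev w' B = ∑ a ∈ B, (w a : ℝ)
      - ε * (∑ i ∈ T, ((B ∩ S i).card : ℝ) + ((B ∩ Z).card : ℝ)) := by
    intro B
    unfold ev
    simp only [hw']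
    rw [sum_sub_distrib, ← mul_sum, sum_add_distrib, sum_comm]
    congr 3
    · refine sum_congr rfl fun i _ => ?_
      rw [← sum_filter, sum_const, nsmul_eq_mul, mul_one, filter_mem_eq_inter]
    · rw [← sum_filter, sum_const, nsmul_eq_mul, mul_one, filter_mem_eq_inter]
  obtain ⟨y', hy0, hyw, hyt⟩ := hpack w' (t - ε * T.card) hw'0 (by
    intro B hB
    rw [hw'B]
    by_cases hBm : MinC S w B
    · have h1 : ∑ i ∈ T, ((B ∩ S i).card : ℝ) = T.card := by
        rw [sum_congr rfl fun i hi => by rw [(TT_spec hrow hi).1 B hBm]]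
        simp
      have h2 : B ∩ Z = ∅ := by
        rw [← disjoint_iff_inter_eq_empty, disjoint_left]
        intro a ha haZ
        exact ((mem_ZZ_iff hrow).1 haZ).2 B hBm ha
      have h3 : t = ∑ a ∈ B, (w a : ℝ) := by
        have h4 : ∑ a ∈ B0, w a = ∑ a ∈ B, w a :=
          le_antisymm (hB0.2 B hB) (hBm.2 B0 hB0.1)
        rw [ht]
        exact_mod_cast h4
      rw [h1, h2, h3]
      simp
    · have h1 : t + 1 ≤ ∑ a ∈ B, (w a : ℝ) := by
        have h2 : ∑ a ∈ B0, w a + 1 ≤ ∑ a ∈ B, w a := by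
          by_contra hcon
          apply hBm
          refine ⟨hB, fun B' hB' => ?_⟩
          have := hB0.2 B' hB'
          omega
        rw [ht]
        exact_mod_cast h2
      have h2 : ∑ i ∈ T, ((B ∩ S i).card : ℝ) + ((B ∩ Z).card : ℝ) ≤ ι' * α' + α' := by
        refine add_le_add ?_ (hCc _)
        calc ∑ i ∈ T, ((B ∩ S i).card : ℝ) ≤ ∑ i ∈ T, α' :=
              sum_le_sum fun i _ => hCc _
          _ = (T.card : ℝ) * α' := by simp
          _ ≤ ι' * α' := mul_le_mul_of_nonneg_right hTc hα0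
      have h3 : ε * (∑ i ∈ T, ((B ∩ S i).card : ℝ) + ((B ∩ Z).card : ℝ)) ≤ ε * (ι' * α' + α') :=
        mul_le_mul_of_nonneg_left h2 hε0.le
      have h4 : ε * (ι' * α' + α') ≤ 1 := by
        rw [← hε1]
        have : 0 ≤ ε * (ι' + 1) := by positivity
        nlinarith
      have h5 : 0 ≤ ε * (T.card : ℝ) := by positivity
      linarith)
  set ys : ι → ℝ := fun i => y' i + if i ∈ T then ε else 0 with hys
  have hys0 : ∀ i, 0 ≤ ys i := fun i => by
    simp only [hys]
    have := hy0 i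
    split_ifs <;> linarith
  have hysum : ∑ i, ys i = ∑ i, y' i + ε * T.card := by
    simp only [hys]
    rw [sum_add_distrib, ← sum_filter, sum_const, nsmul_eq_mul, mul_comm]
    congr 4
    ext i
    simp
  have hysa : ∀ a, ∑ i, (if a ∈ S i then ys i else 0) ≤ w a - ε * (if a ∈ Z then 1 else 0) := by
    intro a
    have h1 := hyw a
    have h2 : ∑ i, (if a ∈ S i then ys i else 0)
        = ∑ i, (if a ∈ S i then y' i else 0) + ε * ∑ i ∈ T, (if a ∈ S i then (1 : ℝ) else 0) := by
      rw [mul_sum, sum_subset (subset_univ T) (f := fun i => if i ∈ T then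
        ε * (if a ∈ S i then (1 : ℝ) else 0) else 0) (fun i _ hi => by simp [hi]) |>.symm.trans
        (sum_congr rfl fun i hi => by simp [hi]) |>.symm, ← sum_add_distrib]
      refine sum_congr rfl fun i _ => ?_
      simp only [hys]
      split_ifs <;> ring
    rw [h2]
    simp only [hw'] at h1
    linarith
  -- complementary slackness
  have hx := pat_avg (w := w) hrow
  have hxw := sum_avg hrow hB0
  have e1 : ∑ i, ys i * (ev (avg S w) (S i) - 1) +
      ∑ a, avg S w a * (w a - ∑ i, (if a ∈ S i then ys i else 0)) = t - ∑ i, ys i := by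
    have h1 := dual_sum (S := S) ys ys (avg S w)
    have h2 : ∑ a, avg S w a * (w a - ∑ i, (if a ∈ S i then ys i else 0))
        = t - ∑ i, ys i * ev (avg S w) (S i) := by
      rw [← h1, ht, ← hxw, ← sum_sub_distrib]
      exact sum_congr rfl fun a _ => by ring
    rw [h2]
    simp only [mul_sub, mul_one, sum_sub_distrib]
    ring
  have n1 : ∀ i, 0 ≤ ys i * (ev (avg S w) (S i) - 1) := fun i =>
    mul_nonneg (hys0 i) (by linarith [one_le_ev_avg (w := w) hrow i])
  have n2 : ∀ a, 0 ≤ avg S w a * (w a - ∑ i, (if a ∈ S i then ys i else 0)) := fun a => by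
    refine mul_nonneg (avg_nonneg a) ?_
    have h1 := hysa a
    have h2 : 0 ≤ ε * (if a ∈ Z then (1 : ℝ) else 0) := by
      refine mul_nonneg hε0.le ?_
      split_ifs <;> norm_num
    linarith
  have n3 := sum_nonneg fun i (_ : i ∈ (univ : Finset ι)) => n1 i
  have n4 := sum_nonneg fun a (_ : a ∈ (univ : Finset α)) => n2 a
  have e2 : t - ∑ i, ys i ≤ 0 := by
    rw [hysum]
    linarith
  have z1 : ∑ i, ys i * (ev (avg S w) (S i) - 1) = 0 := by linarith
  have z2 : ∑ a, avg S w a * (w a - ∑ i, (if a ∈ S i then ys i else 0)) = 0 := by linarith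
  refine ⟨ys, ε, hε0, fun i hi => ?_, fun i hi => ?_, fun a ha => ?_, fun a ha => ?_⟩
  · simp only [hys, hi, if_true]
    linarith [hy0 i]
  · have h1 := (sum_eq_zero_iff_of_nonneg fun i _ => n1 i).1 z1 i (mem_univ i)
    refine (mul_eq_zero.1 h1).resolve_right ?_
    have := hx.loose i hi
    intro h
    linarith
  · have h1 := (sum_eq_zero_iff_of_nonneg fun a _ => n2 a).1 z2 a (mem_univ a)
    have h2 := (mul_eq_zero.1 h1).resolve_left (hx.pos a ha).ne'
    linarith
  · have h1 := hysa a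
    rw [if_pos ha, mul_one] at h1
    exact h1

end Pool.Agent.Dyad4
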