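import Pool.Agent.Dyad4.NoBad
import Pool.Agent.Dyad4.Strict

/-!
# Passing to the minor given by the weights
-/

set_option autoImplicit false
set_option linter.unusedSectionVars false
set_option linter.unusedVariables false

namespace Pool.Agent.Dyad4

open Finset Filter Topology

variable {ι α : Type*} [Fintype ι] [Fintype α] [DecidableEq ι] [DecidableEq α]
  {S : ι → Finset α} {N : Submonoid ℕ} {w : α → ℤ}

/-- the minor: rows without elements of weight zero, minus the elements in `ZZ` -/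
noncomputable def mi (S : ι → Finset α) (w : α → ℤ) (i : {i : ι // ∀ a ∈ S i, w a ≠ 0}) :
    Finset α := S i.1 \ ZZ S w

theorem ideal_mi (hrow : ∀ i, (S i).Nonempty) (hI : IdealS S) : IdealS (mi S w) := by
  classical
  intro W hW x hx
  set D0 : Finset α := univ.filter fun a => w a = 0 with hD0
  have hD0Z : ∀ a, w a = 0 → a ∉ ZZ S w := fun a ha h => ((mem_ZZ_iff hrow).1 h).1 ha
  set M : ℝ := ∑ a, W a * x a + 1 with hM
  have hM0 : 0 < M := by
    have : 0 ≤ ∑ a, W a * x a := sum_nonneg fun a _ => mul_nonneg (hW a) (hx.1 a)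
    linarith
  set x' : α → ℝ := fun a => if a ∈ ZZ S w then 0 else if w a = 0 then x a + 1 else x a with hx'
  set W' : α → ℝ := fun a => if a ∈ ZZ S w then M else if w a = 0 then 0 else W a with hW'
  have hx'0 : ∀ a, 0 ≤ x' a := fun a => by
    simp only [hx']
    have := hx.1 a
    split_ifs <;> linarith
  have hW'0 : ∀ a, 0 ≤ W' a := fun a => by
    simp only [hW']
    have := hW a
    split_ifs <;> linarith
  have hxP : InPoly S x' := by
    refine ⟨hx'0, fun i => ?_⟩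
    by_cases hi : ∀ a ∈ S i, w a ≠ 0
    · have h1 := hx.2 ⟨i, hi⟩
      unfold ev mi at h1
      unfold ev
      have h2 : ∑ a ∈ S i \ ZZ S w, x a = ∑ a ∈ S i \ ZZ S w, x' a := by
        refine sum_congr rfl fun a ha => ?_
        obtain ⟨ha1, ha2⟩ := mem_sdiff.1 ha
        simp [hx', ha2, hi a ha1]
      rw [h2] at h1
      exact h1.trans (sum_le_sum_of_subset_of_nonneg sdiff_subset fun a _ _ => hx'0 a)
    · push Not at hi
      obtain ⟨a, ha, haw⟩ := hi
      have h1 : x' a ≤ ev x' (S i) := single_le_sum (f := x') (fun a _ => hx'0 a) ha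
      have h2 : x' a = x a + 1 := by simp [hx', hD0Z a haw, haw]
      have := hx.1 a
      linarith
  obtain ⟨B, hB, hBW⟩ := hI W' hW'0 x' hxP
  have hle : ∑ a, W' a * x' a ≤ ∑ a, W a * x a := by
    refine sum_le_sum fun a _ => ?_
    have := mul_nonneg (hW a) (hx.1 a)
    simp only [hx', hW']
    split_ifs with h1 h2
    · simpa using this
    · simpa using this
    · exact le_rfl
  have hBZ : ∀ a ∈ B, a ∉ ZZ S w := by
    intro a ha haZ
    have h1 : W' a ≤ ev W' B := single_le_sum (f := W') (fun a _ => hW'0 a) ha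
    have h2 : W' a = M := by simp [hW', haZ]
    linarith
  refine ⟨B \ D0, fun i => ?_, ?_⟩
  · obtain ⟨a, ha⟩ := hB i.1
    obtain ⟨ha1, ha2⟩ := mem_inter.1 ha
    refine ⟨a, mem_inter.2 ⟨mem_sdiff.2 ⟨ha1, fun h => i.2 a ha2 (mem_filter.1 h).2⟩,
      mem_sdiff.2 ⟨ha2, hBZ a ha1⟩⟩⟩
  · have h1 : ev W (B \ D0) = ev W' (B \ D0) := by
      unfold ev
      refine sum_congr rfl fun a ha => ?_
      obtain ⟨ha1, ha2⟩ := mem_sdiff.1 ha
      have h2 : w a ≠ 0 := fun h => ha2 (mem_filter.2 ⟨mem_univ _, h⟩)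
      simp [hW', hBZ a ha1, h2]
    have h2 : ev W' (B \ D0) ≤ ev W' B :=
      sum_le_sum_of_subset_of_nonneg sdiff_subset fun a _ _ => hW'0 a
    linarith

/-- the tight rows in the minor -/
noncomputable def Tm (S : ι → Finset α) (w : α → ℤ) : Finset {i : ι // ∀ a ∈ S i, w a ≠ 0} :=
  open Classical in (TT S w).subtype fun i => ∀ a ∈ S i, w a ≠ 0

lemma mem_Tm {i : {i : ι // ∀ a ∈ S i, w a ≠ 0}} : i ∈ Tm S w ↔ i.1 ∈ TT S w := by
  unfold Tm
  simp

lemma sum_Tm (hrow : ∀ i, (S i).Nonempty) {β : Type*} [AddCommMonoid β] (f : ι → β) :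
    ∑ i ∈ Tm S w, f i.1 = ∑ i ∈ TT S w, f i := by
  classical
  unfold Tm
  exact sum_subtype_of_mem f fun i hi => (TT_spec hrow hi).2

lemma ev_mi (hrow : ∀ i, (S i).Nonempty) (i : {i : ι // ∀ a ∈ S i, w a ≠ 0}) :
    ev (fun a => if a ∈ ZZ S w then 1 else avg S w a) (mi S w i) = ev (avg S w) (S i.1) := by
  classical
  unfold ev mi
  rw [← sum_subset (sdiff_subset : S i.1 \ ZZ S w ⊆ S i.1)]
  · exact sum_congr rfl fun a ha => if_neg (Finset.mem_sdiff.1 ha).2
  · intro a ha ha2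
    have h1 : a ∈ ZZ S w := by
      by_contra h
      exact ha2 (mem_sdiff.2 ⟨ha, h⟩)
    exact mem_ZZ.1 h1

theorem pat_mi (hrow : ∀ i, (S i).Nonempty) :
    Pat (mi S w) (Tm S w) ∅ (fun a => if a ∈ ZZ S w then 1 else avg S w a) := by
  have hp := pat_avg (w := w) hrow
  refine ⟨fun a ha => absurd ha (notMem_empty a), fun a _ => ?_, fun i hi => ?_, fun i hi => ?_⟩
  · split_ifs with h
    · exact one_pos
    · exact hp.pos a h
  · rw [ev_mi hrow]
    exact hp.tight _ (mem_Tm.1 hi)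
  · rw [ev_mi hrow]
    exact hp.loose _ fun h => hi (mem_Tm.2 h)

lemma cmb_mi (hrow : ∀ i, (S i).Nonempty) (z : ι → ℤ) {a : α} (ha : a ∉ ZZ S w) :
    cmb (mi S w) (Tm S w) (fun i => z i.1) a = cmb S (TT S w) z a := by
  classical
  unfold cmb
  rw [← sum_Tm hrow]
  refine sum_congr rfl fun i _ => ?_
  have h1 : a ∈ mi S w i ↔ a ∈ S i.1 := by
    unfold mi
    exact ⟨fun h => (Finset.mem_sdiff.1 h).1, fun h => Finset.mem_sdiff.2 ⟨h, ha⟩⟩
  simp only [h1]

lemma cmb_mi_zero (z : {i : ι // ∀ a ∈ S i, w a ≠ 0} → ℤ) {a : α} (ha : a ∈ ZZ S w) :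
    cmb (mi S w) (Tm S w) z a = 0 := by
  classical
  unfold cmb
  refine sum_eq_zero fun i _ => ?_
  rw [if_neg]
  unfold mi
  exact fun h => (mem_sdiff.1 h).2 ha

/-- transfer of the lattice condition from the minor -/
theorem good_of_mi (hrow : ∀ i, (S i).Nonempty)
    (h : ∀ v, Rep ⊤ (mi S w) (Tm S w) ∅ v → Rep N (mi S w) (Tm S w) ∅ v) :
    ∀ v, Rep ⊤ S (TT S w) (ZZ S w) v → Rep N S (TT S w) (ZZ S w) v := by
  classical
  intro v hv
  obtain ⟨k, hk, hk0, z, hz⟩ := hv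
  obtain ⟨k', hk', hk0', z', hz'⟩ := h (fun a => if a ∈ ZZ S w then 0 else v a)
    ⟨k, hk, hk0, fun i => z i.1, fun a _ => by
      by_cases ha : a ∈ ZZ S w
      · rw [cmb_mi_zero _ ha]
        simp [ha]
      · rw [cmb_mi hrow z ha, ← hz a ha]
        simp [ha]⟩
  refine ⟨k', hk', hk0', fun i => if h : ∀ a ∈ S i, w a ≠ 0 then z' ⟨i, h⟩ else 0, fun a ha => ?_⟩
  have h1 := hz' a (notMem_empty a)
  simp only [ha, if_false] at h1
  rw [h1, ← cmb_mi hrow _ ha]
  congr 1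
  funext i
  have h2 : ∀ a ∈ S i.1, w a ≠ 0 := i.2
  show z' i = if h : ∀ a ∈ S i.1, w a ≠ 0 then z' ⟨i.1, h⟩ else 0
  rw [dif_pos h2]

/-- the lattice condition holds for small rows -/
theorem good_small (hrow : ∀ i, (S i).Nonempty) (hI : IdealS S) {p : ℕ} (hp : p.Prime)
    (hp2 : p ≠ 2) (hcard : ∀ i, (∀ a ∈ S i, w a ≠ 0) → (S i \ ZZ S w).card ≤ p + 1)
    (hN1 : ∀ k, 0 < k → k < p → k ∈ N) (hN2 : ∀ k ∈ N, ¬ p ∣ k) :
    ∀ v, Rep ⊤ S (TT S w) (ZZ S w) v → Rep N S (TT S w) (ZZ S w) v := by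
  classical
  exact good_of_mi hrow fun v hv => no_bad (ideal_mi hrow hI) hp hp2
    (fun i => hcard i.1 i.2) hN1 hN2 _ _ _ _ rfl (pat_mi hrow) v hv

end Pool.Agent.Dyad4
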