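import Pool.Agent.Dyad4.StepB

/-!
# No face is bad at `p` when the rows have at most `p + 1` elements
-/

set_option autoImplicit false
set_option linter.unusedSectionVars false
set_option linter.unusedVariables false

namespace Pool.Agent.Dyad4

open Finset Filter Topology

variable {ι α : Type*} [Fintype ι] [Fintype α] [DecidableEq ι] [DecidableEq α]
  {S : ι → Finset α} {T : Finset ι} {Z : Finset α} {x : α → ℝ} {N : Submonoid ℕ}

lemma ell_pair (B D : Finset α) (e f : α) : ell B D (pair e f) =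
    ((if e ∈ D then 1 else 0) - (if f ∈ D then 1 else 0)) -
      ((if e ∈ B then 1 else 0) - (if f ∈ B then 1 else 0)) := by
  have h : ∀ (C : Finset α) (c : α), ∑ a ∈ C, (if a = c then (1 : ℤ) else 0)
      = if c ∈ C then 1 else 0 := by
    intro C c
    rw [sum_ite_eq']
  unfold ell pair
  rw [sum_sub_distrib, sum_sub_distrib, h, h, h, h]

lemma ell_add (B D : Finset α) (u v : α → ℤ) :
    ell B D (fun a => u a + v a) = ell B D u + ell B D v := by
  unfold ell
  rw [sum_add_distrib, sum_add_distrib]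
  ring

lemma ell_sub (B D : Finset α) (u v : α → ℤ) :
    ell B D (fun a => u a - v a) = ell B D u - ell B D v := by
  unfold ell
  rw [sum_sub_distrib, sum_sub_distrib]
  ring

/-- **Main lemma.** -/
theorem no_bad (hI : IdealS S) {p : ℕ} (hp : p.Prime) (hp2 : p ≠ 2)
    (hcard : ∀ i, (S i).card ≤ p + 1)
    (hN1 : ∀ k, 0 < k → k < p → k ∈ N) (hN2 : ∀ k ∈ N, ¬ p ∣ k) :
    ∀ (n : ℕ) (T : Finset ι) (Z : Finset α) (x : α → ℝ),
      (Fintype.card α - Z.card) * (Fintype.card ι + 1) + T.card = n → Pat S T Z x →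
      ∀ v, Rep ⊤ S T Z v → Rep N S T Z v := by
  classical
  intro n
  induction n using Nat.strong_induction_on with
  | _ n ih =>
  intro T Z x hn hx v₀ h0
  by_contra hbad
  -- the two induction hypotheses
  have IHT : ∀ T' ⊆ T, T' ≠ T → (∃ x', Pat S T' Z x') → ∀ u, Rep ⊤ S T' Z u → Rep N S T' Z u := by
    intro T' hT' hne hx' u hu
    obtain ⟨x', hx'⟩ := hx'
    refine ih _ ?_ T' Z x' rfl hx' u hu
    have : T'.card < T.card := card_lt_card (lt_of_le_of_ne hT' hne)
    omega
  have IHZ : ∀ Z', Z ⊆ Z' → Z ≠ Z' → (∃ x', Pat S T Z' x') →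
      ∀ u, Rep ⊤ S T Z' u → Rep N S T Z' u := by
    intro Z' hZ' hne hx' u hu
    obtain ⟨x', hx'⟩ := hx'
    refine ih _ ?_ T Z' x' rfl hx' u hu
    have h1 : Z.card < Z'.card := card_lt_card (lt_of_le_of_ne hZ' hne)
    have h2 : Z'.card ≤ Fintype.card α := card_le_univ Z'
    have h3 : (Fintype.card α - Z'.card) * (Fintype.card ι + 1)
        < (Fintype.card α - Z.card) * (Fintype.card ι + 1) :=
      Nat.mul_lt_mul_of_pos_right (by omega) (Nat.succ_pos _)
    omega
  obtain ⟨B, hB⟩ := hx.exists_fcov hI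
  -- the rows in `T`
  have hrows : ∀ i ∈ T, (S i).card = p + 1 ∧ ∀ a ∈ S i, a ∉ Z := by
    intro i hi
    obtain ⟨δ, hδ, hne⟩ := Fac.exists (S := S) (T := T) (Z := Z) (v := chi (S i)) (η₀ := x)
      (Rep.row hi) hx.zero (fun j hj => by rw [hx.tight j hj]; exact zero_le_one) (by
        rw [pr_chi, hx.tight i hi]
        exact one_ne_zero)
    rw [pr_chi] at hne
    obtain ⟨D, hDZ, -, hD, -⟩ := stepA hI hp hcard hN1 hN2 hx h0 hbad IHT hB hδ
    obtain ⟨h1, h2⟩ := hD i hi hne
    exact ⟨h2, fun a ha haZ => hDZ a haZ (h1 ha)⟩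
  obtain ⟨e, f, hef, heZ, heB, hfB, ⟨i1, hi1, hei1⟩, hP, hPbad⟩ :=
    stepB hp.one_lt.le hcard (fun i hi => (hrows i hi).1) (fun i hi => (hrows i hi).2) hx h0 hbad
      IHZ hB
  obtain ⟨B2, hB2, heB2⟩ := hx.exists_fcov_mem hI hi1 hei1 heZ
  obtain ⟨e', f', hef', heZ', heB', hfB', -, hP', hPbad'⟩ :=
    stepB hp.one_lt.le hcard (fun i hi => (hrows i hi).1) (fun i hi => (hrows i hi).2) hx h0 hbad
      IHZ hB2
  have hee' : e ≠ e' := fun h => heB' (h ▸ heB2)
  have hef'' : e ≠ f' := fun h => hfB' (h ▸ heB2)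
  -- membership of the second pair in `B`
  have hB' : ((if e' ∈ B then 1 else 0) - (if f' ∈ B then 1 else 0) : ℤ) = 0 := by
    have h1 := hP'.pr_eq_zero (η := dif B2 B) (fun a ha => by
      simp [dif, hB2.disj a ha, hB.disj a ha]) (fun i hi => by
      rw [ev_dif, hB.one i hi, hB2.one i hi, sub_self])
    rw [pr_dif, ell_pair] at h1
    simp only [heB', hfB', if_false, sub_zero] at h1
    exact_mod_cast h1
  -- values on the facets
  have hval : ∀ D : Finset α, (¬ (p : ℤ) ∣ ell B D (pair e f)) →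
      ell B D (pair e f) = 1 ∨ ell B D (pair e f) = -1 := by
    intro D hD
    rw [ell_pair] at hD ⊢
    simp only [heB, hfB, if_false, sub_zero] at hD ⊢
    split_ifs at hD ⊢ <;> simp_all
  have hval' : ∀ D : Finset α, (¬ (p : ℤ) ∣ ell B D (pair e' f')) →
      ell B D (pair e' f') = 1 ∨ ell B D (pair e' f') = -1 := by
    intro D hD
    rw [ell_pair, hB'] at hD ⊢
    simp only [sub_zero] at hD ⊢
    split_ifs at hD ⊢ <;> simp_all
  -- separation
  have hsep : ∀ u : α → ℤ, Rep ⊤ S T Z u → u e = 1 → ∃ δ, Fac S T Z δ ∧ pr δ u ≠ 0 := by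
    intro u hu hue
    refine Fac.exists hu (η₀ := fun a => if a ∈ ({e} : Finset α) then 1 else 0)
      (fun a ha => ?_) (fun i hi => ?_) ?_
    · have : a ≠ e := fun h => heZ (h ▸ ha)
      simp [this]
    · rw [ev_ind]
      positivity
    · have h1 : pr (fun a => if a ∈ ({e} : Finset α) then (1 : ℝ) else 0) u = u e := by
        unfold pr
        rw [sum_eq_single e]
        · simp
        · intro b _ hb
          simp [hb]
        · intro h
          exact absurd (mem_univ e) h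
      rw [h1, hue]
      norm_num
  have hpodd : ¬ ((p : ℤ) ∣ 2) := by
    intro h
    have h1 : p ∣ 2 := by exact_mod_cast h
    exact hp2 ((Nat.prime_dvd_prime_iff_eq hp Nat.prime_two).1 h1)
  have hfac : ∀ δ, Fac S T Z δ → ∃ D : Finset α,
      (∀ v, Rep ⊤ S T Z v → (ell B D v = 0 ↔ pr δ v = 0)) ∧
      ∀ v, Rep ⊤ S T Z v → (Rep N S T Z v ↔ (p : ℤ) ∣ ell B D v) := by
    intro δ hδ
    obtain ⟨D, -, h1, -, h2⟩ := stepA hI hp hcard hN1 hN2 hx h0 hbad IHT hB hδ
    exact ⟨D, h1, h2⟩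
  by_cases hcase : Rep N S T Z (fun a => pair e f a - pair e' f' a)
  · obtain ⟨δ, hδ, hne⟩ := hsep (fun a => pair e f a - pair e' f' a) (hP.sub hP') (by
      simp [pair, hef, hee', hef''])
    obtain ⟨D, hD1, hD2⟩ := hfac δ hδ
    have h1 := (hD2 _ (hP.sub hP')).1 hcase
    have h2 := hval D fun h => hPbad ((hD2 _ hP).2 h)
    have h3 := hval' D fun h => hPbad' ((hD2 _ hP').2 h)
    have h4 : ell B D (fun a => pair e f a - pair e' f' a) ≠ 0 := fun h =>
      hne ((hD1 _ (hP.sub hP')).1 h)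
    rw [ell_sub] at h1 h4
    rcases h2 with h2 | h2 <;> rcases h3 with h3 | h3 <;> rw [h2, h3] at h1 h4
    · exact h4 (by norm_num)
    · exact hpodd (by simpa using h1)
    · refine hpodd ?_
      have : (p : ℤ) ∣ -(-1 - 1) := (dvd_neg).2 h1
      simpa using this
    · exact h4 (by norm_num)
  · obtain ⟨δ, hδ, hne⟩ := hsep (fun a => pair e f a + pair e' f' a) (hP.add hP') (by
      simp [pair, hef, hee', hef''])
    obtain ⟨D, hD1, hD2⟩ := hfac δ hδ
    have h1 : ¬ (p : ℤ) ∣ ell B D (fun a => pair e f a - pair e' f' a) := fun h =>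
      hcase ((hD2 _ (hP.sub hP')).2 h)
    have h2 := hval D fun h => hPbad ((hD2 _ hP).2 h)
    have h3 := hval' D fun h => hPbad' ((hD2 _ hP').2 h)
    have h4 : ell B D (fun a => pair e f a + pair e' f' a) ≠ 0 := fun h =>
      hne ((hD1 _ (hP.add hP')).1 h)
    rw [ell_sub] at h1
    rw [ell_add] at h4
    rcases h2 with h2 | h2 <;> rcases h3 with h3 | h3 <;> rw [h2, h3] at h1 h4
    · exact h1 (by norm_num)
    · exact h4 (by norm_num)
    · exact h4 (by norm_num)
    · exact h1 (by norm_num)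

end Pool.Agent.Dyad4
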