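import Pool.Agent.Dyad4.Facet
import Pool.Agent.MP9a04dc.Duality

/-!
# Points of a set covering polyhedron with given tight rows and given zero coordinates
-/

set_option autoImplicit false
set_option linter.unusedSectionVars false
set_option linter.unusedVariables false

namespace Pool.Agent.Dyad4

open Finset Filter Topology

variable {ι α : Type*} [Fintype ι] [Fintype α] [DecidableEq ι] [DecidableEq α]

/-- cover -/
def Cov (S : ι → Finset α) (B : Finset α) : Prop := ∀ i, (B ∩ S i).Nonempty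

/-- the set covering polyhedron -/
def InPoly (S : ι → Finset α) (x : α → ℝ) : Prop := (∀ a, 0 ≤ x a) ∧ ∀ i, 1 ≤ ev x (S i)

/-- every point dominates, in every nonnegative direction, some cover -/
def IdealS (S : ι → Finset α) : Prop :=
  ∀ w : α → ℝ, (∀ a, 0 ≤ w a) → ∀ x, InPoly S x → ∃ B, Cov S B ∧ ev w B ≤ ∑ a, w a * x a

/-- `x` has tight rows `T` and zero set `Z` -/
structure Pat (S : ι → Finset α) (T : Finset ι) (Z : Finset α) (x : α → ℝ) : Prop where
  zero : ∀ a ∈ Z, x a = 0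
  pos : ∀ a, a ∉ Z → 0 < x a
  tight : ∀ i ∈ T, ev x (S i) = 1
  loose : ∀ i, i ∉ T → 1 < ev x (S i)

/-- cover in the face given by `T` and `Z` -/
structure FCov (S : ι → Finset α) (T : Finset ι) (Z : Finset α) (B : Finset α) : Prop where
  cov : Cov S B
  disj : ∀ a ∈ Z, a ∉ B
  one : ∀ i ∈ T, (B ∩ S i).card = 1

variable {S : ι → Finset α} {T : Finset ι} {Z : Finset α} {x : α → ℝ}

lemma Pat.inPoly (h : Pat S T Z x) : InPoly S x := by
  refine ⟨fun a => ?_, fun i => ?_⟩
  · by_cases ha : a ∈ Z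
    · exact (h.zero a ha).ge
    · exact (h.pos a ha).le
  · by_cases hi : i ∈ T
    · exact (h.tight i hi).ge
    · exact (h.loose i hi).le

theorem exists_dist (hI : IdealS S) (hx : InPoly S x) :
    ∃ l : Finset α → ℝ, (∀ B, 0 ≤ l B) ∧ (∀ B, l B ≠ 0 → Cov S B) ∧ ∑ B, l B = 1 ∧
      ∀ a, ∑ B, (if a ∈ B then l B else 0) ≤ x a := by
  classical
  suffices H : ∃ l : Finset α → ℝ, (∀ B, 0 ≤ l B) ∧ (∀ B, l B ≠ 0 → Cov S B) ∧ 1 ≤ ∑ B, l B ∧
      ∀ a, ∑ B, (if a ∈ B then l B else 0) ≤ x a by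
    obtain ⟨l, h1, h2, h3, h4⟩ := H
    have h5 : 0 < ∑ B, l B := by linarith
    refine ⟨fun B => l B / ∑ C, l C, fun B => div_nonneg (h1 B) h5.le, fun B hB => h2 B ?_, ?_,
      fun a => ?_⟩
    · intro h
      exact hB (by show l B / ∑ C, l C = 0; rw [h, zero_div])
    · rw [← sum_div]
      exact div_self h5.ne'
    · have h6 : ∑ B, (if a ∈ B then l B / ∑ C, l C else 0)
          = (∑ B, if a ∈ B then l B else 0) / ∑ C, l C := by
        rw [sum_div]
        refine sum_congr rfl fun B _ => ?_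
        split_ifs <;> simp
      rw [h6]
      refine (div_le_self (sum_nonneg fun B _ => ?_) h3).trans (h4 a)
      split_ifs
      · exact h1 B
      · exact le_rfl
  set M : Finset α → ℝ := fun B => if Cov S B then 1 else 0 with hM
  have hM0 : ∀ B, 0 ≤ M B := fun B => by
    simp only [hM]
    split_ifs <;> norm_num
  have hone : ∀ y : Finset α → ℝ, (fun _ => (1 : ℝ)) ⬝ᵥ y = ∑ B, y B := fun y => by
    simp [dotProduct]
  have hg : ∀ (a : α) (y : Finset α → ℝ), (fun B : Finset α => if a ∈ B then (1 : ℝ) else 0) ⬝ᵥ y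
      = ∑ B, if a ∈ B then y B else 0 := fun a y => by
    simp [dotProduct]
  obtain ⟨l, hl, hl2, hl3⟩ := Pool.Agent.MP9a04dc.lp_duality (J := Finset α) (I := α)
    (Set.Icc 0 M) isCompact_Icc (convex_Icc _ _)
    (fun a B => if a ∈ B then 1 else 0) x (fun _ => 1) 1 0 ⟨le_rfl, hM0⟩
    (fun a => by simpa using hx.1 a) (by
      intro z hz
      obtain ⟨B, hB, hBz⟩ := hI z hz x hx
      refine ⟨fun C => if C = B then 1 else 0, ⟨fun C => ?_, fun C => ?_⟩, ?_⟩
      · show (0 : ℝ) ≤ if C = B then 1 else 0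
        split_ifs <;> norm_num
      · show (if C = B then (1 : ℝ) else 0) ≤ M C
        split_ifs with h
        · subst h
          simp [hM, hB]
        · exact hM0 C
      · rw [hone]
        have h1 : ∀ a, (fun C : Finset α => if a ∈ C then (1 : ℝ) else 0) ⬝ᵥ
            (fun C => if C = B then (1 : ℝ) else 0) = if a ∈ B then 1 else 0 := by
          intro a
          simp [dotProduct]
        simp only [h1, sum_ite_eq', mem_univ, if_true, mul_sub, sum_sub_distrib, mul_ite, mul_one,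
          mul_zero]
        have h2 : ∑ a, (if a ∈ B then z a else 0) = ev z B := by
          unfold ev
          rw [← sum_filter]
          congr 1
          ext a
          simp
        rw [h2]
        linarith)
  refine ⟨l, fun B => hl.1 B, fun B hB => ?_, ?_, fun a => ?_⟩
  · by_contra hcon
    have h1 : l B ≤ M B := hl.2 B
    simp only [hM, hcon, if_false] at h1
    exact hB (le_antisymm h1 (hl.1 B))
  · rw [← hone]
    exact hl3
  · rw [← hg]
    exact hl2 a

/-- the distribution meets tight rows exactly -/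
theorem dist_tight {l : Finset α → ℝ} (h0 : ∀ B, 0 ≤ l B) (hc : ∀ B, l B ≠ 0 → Cov S B)
    (h1 : 1 ≤ ∑ B, l B) (h2 : ∀ a, ∑ B, (if a ∈ B then l B else 0) ≤ x a) {i : ι}
    (hi : ev x (S i) = 1) :
    (∀ B, l B ≠ 0 → (B ∩ S i).card = 1) ∧
      ∀ a ∈ S i, ∑ B, (if a ∈ B then l B else 0) = x a := by
  have e1 : ∑ a ∈ S i, ∑ B, (if a ∈ B then l B else 0) = ∑ B, l B * ((B ∩ S i).card : ℝ) := by
    rw [sum_comm]
    refine sum_congr rfl fun B _ => ?_
    rw [← sum_filter, sum_const, nsmul_eq_mul, mul_comm]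
    congr 3
    ext a
    simp [and_comm]
  have e2 : ∀ B, 0 ≤ l B * (((B ∩ S i).card : ℝ) - 1) := by
    intro B
    by_cases hB : l B = 0
    · simp [hB]
    · have : (1 : ℝ) ≤ ((B ∩ S i).card : ℝ) := by
        have := (hc B hB i).card_pos
        exact_mod_cast this
      exact mul_nonneg (h0 B) (by linarith)
  have e3 : ∑ B, l B * (((B ∩ S i).card : ℝ) - 1)
      = ∑ a ∈ S i, ∑ B, (if a ∈ B then l B else 0) - ∑ B, l B := by
    rw [e1, ← sum_sub_distrib]
    exact sum_congr rfl fun B _ => by ring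
  have e4 : ∑ a ∈ S i, (x a - ∑ B, (if a ∈ B then l B else 0))
      = 1 - ∑ a ∈ S i, ∑ B, (if a ∈ B then l B else 0) := by
    rw [sum_sub_distrib, ← hi]
    rfl
  have e5 : ∑ a ∈ S i, ∑ B, (if a ∈ B then l B else 0) ≤ 1 := by
    rw [← hi]
    exact sum_le_sum fun a _ => h2 a
  have e6 : 0 ≤ ∑ B, l B * (((B ∩ S i).card : ℝ) - 1) := sum_nonneg fun B _ => e2 B
  have e7 : ∑ B, l B * (((B ∩ S i).card : ℝ) - 1) = 0 := by
    apply le_antisymm _ e6
    rw [e3]
    linarith
  constructor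
  · intro B hB
    have := (sum_eq_zero_iff_of_nonneg fun B _ => e2 B).1 e7 B (mem_univ B)
    have h3 : ((B ∩ S i).card : ℝ) - 1 = 0 := (mul_eq_zero.1 this).resolve_left hB
    have h4 : ((B ∩ S i).card : ℝ) = 1 := by linarith
    exact_mod_cast h4
  · intro a ha
    have e8 : ∑ a ∈ S i, (x a - ∑ B, (if a ∈ B then l B else 0)) = 0 := by
      rw [e4]
      rw [e3] at e7
      linarith
    have := (sum_eq_zero_iff_of_nonneg fun a _ => sub_nonneg.2 (h2 a)).1 e8 a ha
    linarith

lemma dist_zero {l : Finset α → ℝ} (h0 : ∀ B, 0 ≤ l B)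
    (h2 : ∀ a, ∑ B, (if a ∈ B then l B else 0) ≤ x a) {a : α} (ha : x a = 0) {B : Finset α}
    (hB : l B ≠ 0) : a ∉ B := by
  intro hab
  have h3 : l B ≤ ∑ C, (if a ∈ C then l C else 0) := by
    have := single_le_sum (f := fun C => if a ∈ C then l C else 0) (s := univ) (fun C _ => by
      show 0 ≤ if a ∈ C then l C else 0
      split_ifs
      · exact h0 C
      · exact le_rfl) (mem_univ B)
    simpa [hab] using this
  have h4 := h2 a
  exact hB (le_antisymm (by linarith) (h0 B))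

/-- a distribution on the covers of the face -/
theorem Pat.exists_dist (hI : IdealS S) (h : Pat S T Z x) :
    ∃ l : Finset α → ℝ, (∀ B, 0 ≤ l B) ∧ (∀ B, l B ≠ 0 → FCov S T Z B) ∧ ∑ B, l B = 1 ∧
      (∀ a, ∑ B, (if a ∈ B then l B else 0) ≤ x a) ∧
      ∀ i ∈ T, ∀ a ∈ S i, ∑ B, (if a ∈ B then l B else 0) = x a := by
  obtain ⟨l, h0, hc, h1, h2⟩ := Dyad4.exists_dist hI h.inPoly
  refine ⟨l, h0, fun B hB => ⟨hc B hB, fun a ha => dist_zero h0 h2 (h.zero a ha) hB,
    fun i hi => (dist_tight h0 hc h1.ge h2 (h.tight i hi)).1 B hB⟩, h1, h2,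
    fun i hi a ha => (dist_tight h0 hc h1.ge h2 (h.tight i hi)).2 a ha⟩

theorem Pat.exists_fcov (hI : IdealS S) (h : Pat S T Z x) : ∃ B, FCov S T Z B := by
  obtain ⟨l, h0, hc, h1, h2, h3⟩ := h.exists_dist hI
  by_contra hcon
  push Not at hcon
  have : ∑ B, l B = 0 := sum_eq_zero fun B _ => by
    by_contra hB
    exact hcon B (hc B hB)
  linarith

theorem Pat.exists_fcov_mem (hI : IdealS S) (h : Pat S T Z x) {i : ι} (hi : i ∈ T) {a : α}
    (ha : a ∈ S i) (haZ : a ∉ Z) : ∃ B, FCov S T Z B ∧ a ∈ B := by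
  obtain ⟨l, h0, hc, h1, h2, h3⟩ := h.exists_dist hI
  by_contra hcon
  push Not at hcon
  have : ∑ B, (if a ∈ B then l B else 0) = 0 := sum_eq_zero fun B _ => by
    split_ifs with hB
    · by_contra hl
      exact hcon B (hc B hl) hB
    · rfl
  rw [h3 i hi a ha] at this
  exact (h.pos a haZ).ne' this

lemma eventually_pos {c d : ℝ} (h : 0 < c) : ∀ᶠ ε in 𝓝[>] (0 : ℝ), 0 < c + ε * d := by
  have h1 : Tendsto (fun ε : ℝ => c + ε * d) (𝓝 0) (𝓝 (c + 0 * d)) := by
    apply Continuous.tendsto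
    fun_prop
  rw [zero_mul, add_zero] at h1
  exact (h1.mono_left nhdsWithin_le_nhds).eventually (lt_mem_nhds h)

/-- small perturbations keep positive coordinates positive and loose rows loose -/
lemma Pat.eventually_perturb (h : Pat S T Z x) (η : α → ℝ) :
    ∀ᶠ ε in 𝓝[>] (0 : ℝ), (∀ a, a ∉ Z → 0 < x a + ε * η a) ∧
      ∀ i, i ∉ T → 1 < ev (fun a => x a + ε * η a) (S i) := by
  refine Filter.Eventually.and ?_ ?_
  · have h1 : ∀ᶠ ε in 𝓝[>] (0 : ℝ), ∀ a ∈ (univ : Finset α), a ∉ Z → 0 < x a + ε * η a := by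
      rw [Finset.eventually_all]
      intro a _
      by_cases ha : a ∈ Z
      · exact Eventually.of_forall fun ε h => absurd ha h
      · filter_upwards [eventually_pos (d := η a) (h.pos a ha)] with ε hε _
        exact hε
    filter_upwards [h1] with ε hε a
    exact hε a (mem_univ a)
  · have h1 : ∀ᶠ ε in 𝓝[>] (0 : ℝ), ∀ i ∈ (univ : Finset ι), i ∉ T →
        1 < ev (fun a => x a + ε * η a) (S i) := by
      rw [Finset.eventually_all]
      intro i _
      by_cases hi : i ∈ T
      · exact Eventually.of_forall fun ε h => absurd hi h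
      · filter_upwards [eventually_pos (d := ev η (S i)) (sub_pos.2 (h.loose i hi))] with ε hε _
        rw [ev_lin]
        linarith
    filter_upwards [h1] with ε hε i
    exact hε i (mem_univ i)

end Pool.Agent.Dyad4
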