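import Pool.Agent.Dyad4.Pat

/-!
# Rounding a strictly complementary dual solution
-/

set_option autoImplicit false
set_option linter.unusedSectionVars false
set_option linter.unusedVariables false

namespace Pool.Agent.Dyad4

open Finset Filter Topology

variable {ι α : Type*} [Fintype ι] [Fintype α] [DecidableEq ι] [DecidableEq α]
  {S : ι → Finset α} {T : Finset ι} {Z : Finset α} {N : Submonoid ℕ}

/-- uniform bounds for the representations of the vectors in a box -/
theorem exists_bound (hgood : ∀ v, Rep ⊤ S T Z v → Rep N S T Z v) (b : ℕ) :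
    ∃ C : ℕ, ∀ v : α → ℤ, (∀ a, 0 ≤ v a ∧ v a ≤ b) → Rep ⊤ S T Z v →
      ∃ k ∈ N, 0 < k ∧ ∃ z : ι → ℤ, (∀ i, |z i| ≤ C) ∧
        ∀ a, a ∉ Z → (k : ℤ) * v a = cmb S T z a := by
  classical
  have hfin : (Set.Icc (0 : α → ℤ) (fun _ => (b : ℤ))).Finite := Set.finite_Icc _ _
  have hch : ∀ v : α → ℤ, ∃ k : ℕ, ∃ z : ι → ℤ, Rep ⊤ S T Z v →
      k ∈ N ∧ 0 < k ∧ ∀ a, a ∉ Z → (k : ℤ) * v a = cmb S T z a := by
    intro v
    by_cases hv : Rep ⊤ S T Z v
    · obtain ⟨k, hk, hk0, z, hz⟩ := hgood v hv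
      exact ⟨k, z, fun _ => ⟨hk, hk0, hz⟩⟩
    · exact ⟨0, fun _ => 0, fun h => absurd h hv⟩
  choose k z hkz using hch
  refine ⟨∑ v ∈ hfin.toFinset, ∑ i, (z v i).natAbs, fun v hv hT => ?_⟩
  obtain ⟨h1, h2, h3⟩ := hkz v hT
  refine ⟨k v, h1, h2, z v, fun i => ?_, h3⟩
  have hmem : v ∈ hfin.toFinset := by
    rw [Set.Finite.mem_toFinset]
    exact ⟨fun a => (hv a).1, fun a => (hv a).2⟩
  have h4 : (z v i).natAbs ≤ ∑ i, (z v i).natAbs :=
    single_le_sum (f := fun i => (z v i).natAbs) (fun _ _ => Nat.zero_le _) (mem_univ i)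
  have h5 : ∑ i, (z v i).natAbs ≤ ∑ v ∈ hfin.toFinset, ∑ i, (z v i).natAbs :=
    single_le_sum (f := fun v => ∑ i, (z v i).natAbs) (fun _ _ => Nat.zero_le _) hmem
  have h6 : |z v i| = ((z v i).natAbs : ℤ) := Int.abs_eq_natAbs _
  rw [h6]
  exact_mod_cast h4.trans h5

/-- **Rounding.** -/
theorem round (hgood : ∀ v, Rep ⊤ S T Z v → Rep N S T Z v) (h2 : 2 ∈ N) (w : α → ℤ)
    (ys : ι → ℝ) {ε : ℝ} (hε : 0 < ε) (hy : ∀ i ∈ T, ε ≤ ys i) (hyT : ∀ i, i ∉ T → ys i = 0)
    (hyeq : ∀ a, a ∉ Z → ∑ i, (if a ∈ S i then ys i else 0) = w a)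
    (hyZ : ∀ a ∈ Z, ∑ i, (if a ∈ S i then ys i else 0) ≤ w a - ε) :
    ∃ y : ι → ℝ, (∀ i, 0 ≤ y i) ∧ (∀ i, i ∉ T → y i = 0) ∧
      (∀ a, a ∉ Z → ∑ i, (if a ∈ S i then y i else 0) = w a) ∧
      (∀ a, ∑ i, (if a ∈ S i then y i else 0) ≤ w a) ∧
      ∀ i, ∃ (n : ℤ) (d : ℕ), d ∈ N ∧ 0 < d ∧ y i = (n : ℝ) / (d : ℝ) := by
  classical
  obtain ⟨C, hC⟩ := exists_bound hgood (Fintype.card ι)
  -- the power of two
  obtain ⟨r, hr⟩ : ∃ r : ℕ, ((C : ℝ) + 1) * ((Fintype.card ι : ℝ) + 1) / ε < 2 ^ r :=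
    pow_unbounded_of_one_lt _ one_lt_two
  set m : ℕ := 2 ^ r with hm
  have hmN : m ∈ N := N.pow_mem h2 r
  have hm0 : 0 < m := by positivity
  have hmR : (0 : ℝ) < (m : ℝ) := by exact_mod_cast hm0
  have hmb : ((C : ℝ) + 1) * ((Fintype.card ι : ℝ) + 1) < ε * m := by
    rw [div_lt_iff₀ hε] at hr
    rw [hm]
    push_cast
    linarith
  set z0 : ι → ℤ := fun i => ⌊(m : ℝ) * ys i⌋ with hz0
  have hfl1 : ∀ i, (z0 i : ℝ) ≤ (m : ℝ) * ys i := fun i => Int.floor_le _
  have hfl2 : ∀ i, (m : ℝ) * ys i < (z0 i : ℝ) + 1 := fun i => Int.lt_floor_add_one _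
  have hz0T : ∀ i, i ∉ T → z0 i = 0 := fun i hi => by
    simp [hz0, hyT i hi]
  set v : α → ℤ := fun a => if a ∈ Z then 0 else (m : ℤ) * w a - cmb S T z0 a with hv
  -- `v` as a combination of the fractional parts
  have hvr : ∀ a, a ∉ Z → (v a : ℝ) = ∑ i ∈ T, (if a ∈ S i then (m : ℝ) * ys i - z0 i else 0) := by
    intro a ha
    simp only [hv, ha, if_false]
    unfold cmb
    push_cast
    rw [← hyeq a ha, mul_sum]
    rw [← sum_subset (subset_univ T) (fun i _ hi => by
      split_ifs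
      · rw [hyT i hi, mul_zero]
      · rw [mul_zero]), ← sum_sub_distrib]
    refine sum_congr rfl fun i _ => ?_
    split_ifs <;> ring
  have hvb : ∀ a, 0 ≤ v a ∧ v a ≤ (Fintype.card ι : ℕ) := by
    intro a
    by_cases ha : a ∈ Z
    · simp [hv, ha]
    · have h3 := hvr a ha
      have h4 : (0 : ℝ) ≤ v a := by
        rw [h3]
        refine sum_nonneg fun i _ => ?_
        split_ifs
        · linarith [hfl1 i]
        · exact le_rfl
      have h5 : (v a : ℝ) ≤ (Fintype.card ι : ℝ) := by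
        rw [h3]
        calc ∑ i ∈ T, (if a ∈ S i then (m : ℝ) * ys i - z0 i else 0) ≤ ∑ i ∈ T, (1 : ℝ) := by
              refine sum_le_sum fun i _ => ?_
              split_ifs
              · linarith [hfl2 i]
              · exact zero_le_one
          _ = (T.card : ℝ) := by simp
          _ ≤ _ := by exact_mod_cast card_le_univ T
      exact ⟨by exact_mod_cast h4, by exact_mod_cast h5⟩
  have hvT : Rep ⊤ S T Z v := by
    refine rep_of_ann fun η h1 h3 => ?_
    have h4 : pr η v = ∑ a, ∑ i ∈ T, (if a ∈ S i then ((m : ℝ) * ys i - z0 i) * η a else 0) := by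
      unfold pr
      refine sum_congr rfl fun a _ => ?_
      by_cases ha : a ∈ Z
      · rw [h1 a ha]
        simp
      · rw [hvr a ha, mul_sum]
        refine sum_congr rfl fun i _ => ?_
        split_ifs <;> ring
    rw [h4, sum_comm]
    refine sum_eq_zero fun i hi => ?_
    have h5 : ∑ a, (if a ∈ S i then ((m : ℝ) * ys i - z0 i) * η a else 0)
        = ((m : ℝ) * ys i - z0 i) * ev η (S i) := by
      unfold ev
      rw [mul_sum, ← sum_filter]
      refine sum_congr ?_ fun _ _ => rfl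
      ext a
      simp
    rw [h5, h3 i hi, mul_zero]
  obtain ⟨k, hk, hk0, zz, hzC, hzz⟩ := hC v hvb hvT
  have hkR : (0 : ℝ) < (k : ℝ) := by exact_mod_cast hk0
  have hk1 : (1 : ℝ) ≤ (k : ℝ) := by exact_mod_cast hk0
  have hzR : ∀ i, |(zz i : ℝ)| ≤ C := fun i => by
    have := hzC i
    exact_mod_cast this
  have hzk : ∀ i, |(zz i : ℝ) / k| ≤ C := fun i => by
    rw [abs_div, abs_of_pos hkR]
    exact (div_le_self (abs_nonneg _) hk1).trans (hzR i)
  set y : ι → ℝ := fun i => if i ∈ T then ((z0 i : ℝ) + zz i / k) / m else 0 with hydef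
  have hyT' : ∀ i, i ∉ T → y i = 0 := fun i hi => by simp [hydef, hi]
  have hyi : ∀ i ∈ T, y i = ((z0 i : ℝ) + zz i / k) / m := fun i hi => by simp [hydef, hi]
  have hsum : ∀ a, ∑ i, (if a ∈ S i then y i else 0)
      = ∑ i ∈ T, (if a ∈ S i then ((z0 i : ℝ) + zz i / k) / m else 0) := by
    intro a
    rw [← sum_subset (subset_univ T) (fun i _ hi => by
      rw [hyT' i hi]
      split_ifs <;> rfl)]
    refine sum_congr rfl fun i hi => ?_
    rw [hyi i hi]
  have heq : ∀ a, a ∉ Z → ∑ i, (if a ∈ S i then y i else 0) = w a := by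
    intro a ha
    rw [hsum]
    have h3 : ∑ i ∈ T, (if a ∈ S i then ((z0 i : ℝ) + zz i / k) / m else 0)
        = ((cmb S T z0 a : ℤ) + ((cmb S T zz a : ℤ) : ℝ) / k) / m := by
      unfold cmb
      push_cast
      rw [sum_div, ← sum_add_distrib, sum_div]
      refine sum_congr rfl fun i _ => ?_
      split_ifs <;> simp
    have h4 : ((cmb S T zz a : ℤ) : ℝ) / k = (v a : ℝ) := by
      rw [← hzz a ha]
      push_cast
      field_simp
    rw [h3, h4]
    simp only [hv, ha, if_false]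
    push_cast
    field_simp
    ring
  refine ⟨y, fun i => ?_, hyT', heq, fun a => ?_, fun i => ?_⟩
  · by_cases hi : i ∈ T
    · rw [hyi i hi]
      refine div_nonneg ?_ hmR.le
      have h3 := hy i hi
      have h4 := hfl2 i
      have h5 := (abs_le.1 (hzk i)).1
      have h6 : ε * m ≤ (m : ℝ) * ys i := by
        rw [mul_comm]
        exact mul_le_mul_of_nonneg_left h3 hmR.le
      have h7 : (C : ℝ) + 1 ≤ ((C : ℝ) + 1) * ((Fintype.card ι : ℝ) + 1) := by
        have h8 : (0 : ℝ) ≤ ((C : ℝ) + 1) * (Fintype.card ι : ℝ) := by positivity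
        linarith
      linarith
    · rw [hyT' i hi]
  · by_cases ha : a ∈ Z
    · rw [hsum]
      have h3 : ∑ i ∈ T, (if a ∈ S i then ((z0 i : ℝ) + zz i / k) / m else 0)
          ≤ ∑ i ∈ T, ((if a ∈ S i then ys i else 0) + C / m) := by
        refine sum_le_sum fun i _ => ?_
        have h4 : (0 : ℝ) ≤ C / m := by positivity
        split_ifs
        · rw [div_le_iff₀ hmR, add_mul, div_mul_cancel₀ _ hmR.ne']
          have h5 := (abs_le.1 (hzk i)).2
          have h6 := hfl1 i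
          linarith
        · linarith
      have h4 : ∑ i ∈ T, ((if a ∈ S i then ys i else 0) + (C : ℝ) / m)
          = ∑ i, (if a ∈ S i then ys i else 0) + T.card * (C / m) := by
        rw [sum_add_distrib, sum_const, nsmul_eq_mul]
        congr 1
        refine sum_subset (subset_univ T) fun i _ hi => ?_
        rw [hyT i hi]
        split_ifs <;> rfl
      have h5 : (T.card : ℝ) * (C / m) ≤ ε := by
        have h6 : (T.card : ℝ) ≤ (Fintype.card ι : ℝ) := by exact_mod_cast card_le_univ T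
        have h7 : (T.card : ℝ) * C ≤ ε * m := by
          have h8 : (T.card : ℝ) * C ≤ (Fintype.card ι : ℝ) * C :=
            mul_le_mul_of_nonneg_right h6 (by positivity)
          have h9 : (Fintype.card ι : ℝ) * C ≤ ((C : ℝ) + 1) * ((Fintype.card ι : ℝ) + 1) := by
            have h10 : (0 : ℝ) ≤ (Fintype.card ι : ℝ) := by positivity
            have h11 : (0 : ℝ) ≤ (C : ℝ) := by positivity
            nlinarith
          linarith
        rw [← mul_div_assoc, div_le_iff₀ hmR]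
        exact h7
      have h6 := hyZ a ha
      linarith
    · exact (heq a ha).le
  · by_cases hi : i ∈ T
    · refine ⟨(k : ℤ) * z0 i + zz i, k * m, N.mul_mem hk hmN, Nat.mul_pos hk0 hm0, ?_⟩
      rw [hyi i hi]
      push_cast
      field_simp
    · exact ⟨0, 1, N.one_mem, one_pos, by rw [hyT' i hi]; simp⟩

end Pool.Agent.Dyad4
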