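import Pool.Agent.Dyad4.Pat

/-!
# Covers adjacent to a face that is bad at a prime
-/

set_option autoImplicit false
set_option linter.unusedSectionVars false
set_option linter.unusedVariables false

namespace Pool.Agent.Dyad4

open Finset Filter Topology

variable {ι α : Type*} [Fintype ι] [Fintype α] [DecidableEq ι] [DecidableEq α]

/-- difference of two characteristic vectors -/
def dif (B D : Finset α) (a : α) : ℝ := (if a ∈ D then 1 else 0) - (if a ∈ B then 1 else 0)

/-- value at `D` minus value at `B` -/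
def ell (B D : Finset α) (v : α → ℤ) : ℤ := ∑ a ∈ D, v a - ∑ a ∈ B, v a

lemma ev_ind (B C : Finset α) : ev (fun a => if a ∈ B then (1 : ℝ) else 0) C = ((B ∩ C).card : ℝ) := by
  unfold ev
  rw [← sum_filter, sum_const, nsmul_eq_mul, mul_one]
  congr 2
  ext a
  simp [and_comm]

lemma ev_dif (B D C : Finset α) : ev (dif B D) C = ((D ∩ C).card : ℝ) - ((B ∩ C).card : ℝ) := by
  rw [← ev_ind, ← ev_ind]
  unfold ev dif
  rw [← sum_sub_distrib]

lemma pr_dif (B D : Finset α) (v : α → ℤ) : pr (dif B D) v = (ell B D v : ℝ) := by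
  unfold pr dif ell
  push_cast
  have h : ∀ C : Finset α, ∑ a, (if a ∈ C then (v a : ℝ) else 0) = ∑ a ∈ C, (v a : ℝ) := by
    intro C
    rw [← sum_filter]
    congr 1
    ext a
    simp
  rw [← h, ← h, ← sum_sub_distrib]
  refine sum_congr rfl fun a _ => ?_
  split_ifs <;> ring

variable {S : ι → Finset α} {T : Finset ι} {Z : Finset α} {x : α → ℝ} {N : Submonoid ℕ}

/-- pairing is proportional on torsion vectors -/
lemma Rep.pr_prop {δ η : α → ℝ} {v : α → ℤ} {c : ℝ} (hv : Rep ⊤ S T Z v) (hδ : ∀ a ∈ Z, δ a = 0)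
    (hη : ∀ a ∈ Z, η a = 0) (hc : ∀ i ∈ T, ev η (S i) = c * ev δ (S i)) :
    pr η v = c * pr δ v := by
  obtain ⟨k, hk, hk0, z, hz⟩ := hv
  have h1 := pr_rep hη hz
  have h2 := pr_rep hδ hz
  rw [sum_congr rfl fun i hi => by rw [hc i hi, mul_left_comm], ← mul_sum, ← h2] at h1
  have h3 : ((k : ℤ) : ℝ) ≠ 0 := by
    have : (k : ℤ) ≠ 0 := by omega
    exact_mod_cast this
  have h4 : ((k : ℤ) : ℝ) * (pr η v - c * pr δ v) = 0 := by linear_combination h1
  have := (mul_eq_zero.1 h4).resolve_left h3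
  linarith

lemma ell_rep {B D : Finset α} (hB : FCov S T Z B) (hD : ∀ a ∈ Z, a ∉ D) {k : ℤ} {v : α → ℤ}
    {z : ι → ℤ} (hz : ∀ a, a ∉ Z → k * v a = cmb S T z a) :
    k * ell B D v = ∑ i ∈ T, z i * (((D ∩ S i).card : ℤ) - 1) := by
  have h1 := pr_rep (η := dif B D) (fun a ha => by simp [dif, hD a ha, hB.disj a ha]) hz
  rw [pr_dif] at h1
  have h2 : ∑ i ∈ T, (z i : ℝ) * ev (dif B D) (S i)
      = ∑ i ∈ T, (z i : ℝ) * (((D ∩ S i).card : ℝ) - 1) := by
    refine sum_congr rfl fun i hi => ?_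
    rw [ev_dif, hB.one i hi]
    simp
  rw [h2] at h1
  exact_mod_cast h1

/-- existence of an adjacent cover -/
theorem exists_adj (hI : IdealS S) (hx : Pat S T Z x) {v₀ : α → ℤ} (h0 : Rep ⊤ S T Z v₀)
    (hbad : ¬ Rep N S T Z v₀)
    (IH : ∀ T' ⊆ T, T' ≠ T → (∃ x', Pat S T' Z x') → ∀ u, Rep ⊤ S T' Z u → Rep N S T' Z u)
    {δ : α → ℝ} (hδ : Fac S T Z δ) :
    ∃ D, (∀ a ∈ Z, a ∉ D) ∧ ∃ c : ℝ, 0 < c ∧ ∀ i ∈ T,
      ((D ∩ S i).card : ℝ) - 1 = c * ev δ (S i) := by
  classical
  set T' : Finset ι := T.filter fun i => ev δ (S i) = 0 with hT'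
  -- the perturbed point
  obtain ⟨ε, ⟨hp1, hp2⟩, hε⟩ := ((hx.eventually_perturb δ).and self_mem_nhdsWithin).exists
  have hε0 : 0 < ε := hε
  have hx' : Pat S T' Z (fun a => x a + ε * δ a) := by
    refine ⟨fun a ha => by simp [hx.zero a ha, hδ.zero a ha], hp1, fun i hi => ?_, fun i hi => ?_⟩
    · obtain ⟨h1, h2⟩ := mem_filter.1 hi
      rw [ev_lin, hx.tight i h1, h2]
      ring
    · by_cases hiT : i ∈ T
      · have h1 : ev δ (S i) ≠ 0 := fun h => hi (mem_filter.2 ⟨hiT, h⟩)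
        have h2 : 0 < ev δ (S i) := lt_of_le_of_ne (hδ.nonneg i hiT) (Ne.symm h1)
        rw [ev_lin, hx.tight i hiT]
        have := mul_pos hε0 h2
        linarith
      · exact hp2 i hiT
  obtain ⟨i0, hi0, hpos0⟩ := hδ.ne
  have hT'ne : T' ≠ T := fun h => by
    rw [← h] at hi0
    exact hpos0.ne' (mem_filter.1 hi0).2
  have IH' := IH T' (filter_subset _ _) hT'ne ⟨_, hx'⟩
  obtain ⟨B, hB⟩ := hx.exists_fcov hI
  obtain ⟨l, l0, lc, l1, l2, l3⟩ := hx'.exists_dist hI
  -- each cover of the support gives a multiple of `δ`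
  have hprop : ∀ D, l D ≠ 0 → ∃ c : ℝ, 0 ≤ c ∧ ∀ i ∈ T,
      ((D ∩ S i).card : ℝ) - 1 = c * ev δ (S i) := by
    intro D hD
    have hDc := lc D hD
    obtain ⟨c, hc⟩ := hδ.prop (η := dif B D)
      (fun a ha => by simp [dif, hDc.disj a ha, hB.disj a ha]) (by
        intro i hi h
        rw [ev_dif, hB.one i hi, hDc.one i (mem_filter.2 ⟨hi, h⟩)]
        simp)
    have hc' : ∀ i ∈ T, ((D ∩ S i).card : ℝ) - 1 = c * ev δ (S i) := by
      intro i hi
      rw [← hc i hi, ev_dif, hB.one i hi]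
      simp
    refine ⟨c, ?_, hc'⟩
    have h1 := hc' i0 hi0
    have h2 : (1 : ℝ) ≤ ((D ∩ S i0).card : ℝ) := by
      have := (hDc.cov i0).card_pos
      exact_mod_cast this
    by_contra hneg
    push Not at hneg
    nlinarith
  by_cases hex : ∃ D, l D ≠ 0 ∧ ∃ c : ℝ, 0 < c ∧ ∀ i ∈ T,
      ((D ∩ S i).card : ℝ) - 1 = c * ev δ (S i)
  · obtain ⟨D, hD, hc⟩ := hex
    exact ⟨D, (lc D hD).disj, hc⟩
  exfalso
  push Not at hex
  have hone : ∀ D, l D ≠ 0 → (D ∩ S i0).card = 1 := by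
    intro D hD
    obtain ⟨c, hc0, hc⟩ := hprop D hD
    rcases hc0.lt_or_eq with h | h
    · exact absurd hc (by
        obtain ⟨i, hi, hne⟩ := hex D hD c h
        intro h'
        exact hne (h' i hi))
    · have := hc i0 hi0
      rw [← h, zero_mul] at this
      have h3 : ((D ∩ S i0).card : ℝ) = 1 := by linarith
      exact_mod_cast h3
  -- an element whose coordinate functional is a multiple of `δ`
  have hel : ∃ a ∈ S i0, ∑ B, (if a ∈ B then l B else 0) < x a + ε * δ a := by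
    by_contra hcon
    push Not at hcon
    have h1 : ev (fun a => x a + ε * δ a) (S i0) ≤ ∑ a ∈ S i0, ∑ B, (if a ∈ B then l B else 0) :=
      sum_le_sum hcon
    have h2 : ∑ a ∈ S i0, ∑ B, (if a ∈ B then l B else 0) = ∑ B, l B := by
      rw [sum_comm]
      refine sum_congr rfl fun C _ => ?_
      by_cases hC : l C = 0
      · simp [hC]
      · rw [← sum_filter, sum_const, nsmul_eq_mul]
        have h3 : ((S i0).filter fun a => a ∈ C).card = 1 := by
          rw [← hone C hC]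
          congr 1
          ext a
          simp [and_comm]
        rw [h3]
        simp
    rw [h2, l1, ev_lin, hx.tight i0 hi0] at h1
    have := mul_pos hε0 hpos0
    linarith
  obtain ⟨a, ha, hlt⟩ := hel
  have hnn : 0 ≤ ∑ B, (if a ∈ B then l B else 0) := sum_nonneg fun B _ => by
    split_ifs
    · exact l0 B
    · exact le_rfl
  have haZ : a ∉ Z := fun h => by
    rw [hx.zero a h, hδ.zero a h] at hlt
    linarith
  have haT : ∀ i ∈ T', a ∉ S i := fun i hi h => by
    rw [l3 i hi a h] at hlt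
    exact lt_irrefl _ hlt
  set η : α → ℝ := fun b => if b ∈ ({a} : Finset α) then 1 else 0 with hη
  have hη1 : ∀ b ∈ Z, η b = 0 := by
    intro b hb
    have : b ≠ a := fun h => haZ (h ▸ hb)
    simp [hη, this]
  have hη2 : ∀ i, ev η (S i) = if a ∈ S i then 1 else 0 := by
    intro i
    rw [hη, ev_ind]
    split_ifs with h
    · rw [singleton_inter_of_mem h]
      simp
    · rw [singleton_inter_of_notMem h]
      simp
  obtain ⟨c, hc⟩ := hδ.prop hη1 (by
    intro i hi h
    rw [hη2, if_neg (haT i (mem_filter.2 ⟨hi, h⟩))])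
  have hc0 : c ≠ 0 := by
    intro h
    have := hc i0 hi0
    rw [h, zero_mul, hη2, if_pos ha] at this
    exact one_ne_zero this
  have hprη : ∀ v : α → ℤ, pr η v = v a := by
    intro v
    unfold pr
    rw [sum_eq_single a]
    · simp [hη]
    · intro b _ hb
      simp [hη, hb]
    · intro h
      exact absurd (mem_univ a) h
  -- subtract a multiple of the row
  set u : α → ℤ := fun b => v₀ b - v₀ a * chi (S i0) b with hu
  have hrow : ∀ M : Submonoid ℕ, Rep M S T Z (fun b => v₀ a * chi (S i0) b) :=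
    fun M => (Rep.row hi0).smul _
  have hu1 : Rep ⊤ S T Z u := h0.sub (hrow ⊤)
  have hu2 : pr δ u = 0 := by
    have h1 := hu1.pr_prop hδ.zero hη1 hc
    rw [hprη] at h1
    have h2 : u a = 0 := by simp [hu, chi, ha]
    rw [h2] at h1
    have h3 : c * pr δ u = 0 := by
      rw [← h1]
      simp
    exact (mul_eq_zero.1 h3).resolve_left hc0
  have hu3 : Rep ⊤ S T' Z u := hδ.rep hu1 hu2 fun i hi h => mem_filter.2 ⟨hi, h⟩
  have hu4 : Rep N S T Z u := (IH' u hu3).mono_T (filter_subset _ _)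
  exact hbad ((hu4.add (hrow N)).congr fun b _ => by simp [hu])

/-- Step A: structure of the adjacent covers, when the rows are small -/
theorem stepA (hI : IdealS S) {p : ℕ} (hp : p.Prime) (hcard : ∀ i, (S i).card ≤ p + 1)
    (hN1 : ∀ k, 0 < k → k < p → k ∈ N) (hN2 : ∀ k ∈ N, ¬ p ∣ k)
    (hx : Pat S T Z x) {v₀ : α → ℤ} (h0 : Rep ⊤ S T Z v₀) (hbad : ¬ Rep N S T Z v₀)
    (IH : ∀ T' ⊆ T, T' ≠ T → (∃ x', Pat S T' Z x') → ∀ u, Rep ⊤ S T' Z u → Rep N S T' Z u)
    {B : Finset α} (hB : FCov S T Z B) {δ : α → ℝ} (hδ : Fac S T Z δ) :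
    ∃ D, (∀ a ∈ Z, a ∉ D) ∧ (∀ v, Rep ⊤ S T Z v → (ell B D v = 0 ↔ pr δ v = 0)) ∧
      (∀ i ∈ T, ev δ (S i) ≠ 0 → S i ⊆ D ∧ (S i).card = p + 1) ∧
      ∀ v, Rep ⊤ S T Z v → (Rep N S T Z v ↔ (p : ℤ) ∣ ell B D v) := by
  classical
  obtain ⟨D, hDZ, c, hc, hDc⟩ := exists_adj hI hx h0 hbad IH hδ
  have hdz : ∀ a ∈ Z, dif B D a = 0 := fun a ha => by simp [dif, hDZ a ha, hB.disj a ha]
  have hev : ∀ i ∈ T, ev (dif B D) (S i) = c * ev δ (S i) := by
    intro i hi
    rw [← hDc i hi, ev_dif, hB.one i hi]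
    simp
  have hellδ : ∀ v, Rep ⊤ S T Z v → (ell B D v : ℝ) = c * pr δ v := by
    intro v hv
    rw [← pr_dif]
    exact hv.pr_prop hδ.zero hdz hev
  have hell0 : ∀ v, Rep ⊤ S T Z v → (ell B D v = 0 ↔ pr δ v = 0) := by
    intro v hv
    have h1 := hellδ v hv
    constructor
    · intro h
      rw [h] at h1
      have : c * pr δ v = 0 := by
        rw [← h1]
        simp
      exact (mul_eq_zero.1 this).resolve_left hc.ne'
    · intro h
      rw [h, mul_zero] at h1
      exact_mod_cast h1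
  set T' : Finset ι := T.filter fun i => ev δ (S i) = 0 with hT'
  obtain ⟨i0, hi0, hpos0⟩ := hδ.ne
  have hT'ne : T' ≠ T := fun h => by
    rw [← h] at hi0
    exact hpos0.ne' (mem_filter.1 hi0).2
  -- the smaller pattern is good
  have hgood : ∀ v, Rep ⊤ S T Z v → ell B D v = 0 → Rep N S T Z v := by
    intro v hv h
    have hx' : ∃ x', Pat S T' Z x' := by
      obtain ⟨ε, ⟨hp1, hp2⟩, hε⟩ := ((hx.eventually_perturb δ).and self_mem_nhdsWithin).exists
      have hε0 : 0 < ε := hε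
      refine ⟨fun a => x a + ε * δ a, fun a ha => by simp [hx.zero a ha, hδ.zero a ha], hp1,
        fun i hi => ?_, fun i hi => ?_⟩
      · obtain ⟨h1, h2⟩ := mem_filter.1 hi
        rw [ev_lin, hx.tight i h1, h2]
        ring
      · by_cases hiT : i ∈ T
        · have h1 : ev δ (S i) ≠ 0 := fun h => hi (mem_filter.2 ⟨hiT, h⟩)
          have h2 : 0 < ev δ (S i) := lt_of_le_of_ne (hδ.nonneg i hiT) (Ne.symm h1)
          rw [ev_lin, hx.tight i hiT]
          have := mul_pos hε0 h2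
          linarith
        · exact hp2 i hiT
    exact (IH T' (filter_subset _ _) hT'ne hx' v (hδ.rep hv ((hell0 v hv).1 h)
      fun i hi h => mem_filter.2 ⟨hi, h⟩)).mono_T (filter_subset _ _)
  have hellsub : ∀ (v u : α → ℤ) (k m : ℤ),
      ell B D (fun b => k * v b - m * u b) = k * ell B D v - m * ell B D u := by
    intro v u k m
    unfold ell
    rw [sum_sub_distrib, sum_sub_distrib, ← mul_sum, ← mul_sum, ← mul_sum, ← mul_sum]
    ring
  have hellrow : ∀ i ∈ T, ell B D (chi (S i)) = ((D ∩ S i).card : ℤ) - 1 := by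
    intro i hi
    have h1 : (ell B D (chi (S i)) : ℝ) = ((D ∩ S i).card : ℝ) - 1 := by
      rw [← pr_dif, pr_chi, ev_dif, hB.one i hi]
      simp
    exact_mod_cast h1
  -- the positive rows
  have hrows : ∀ i ∈ T, ev δ (S i) ≠ 0 → S i ⊆ D ∧ (S i).card = p + 1 := by
    intro i hi hne
    have hpos : 0 < ev δ (S i) := lt_of_le_of_ne (hδ.nonneg i hi) (Ne.symm hne)
    have h1 : (0 : ℝ) < ((D ∩ S i).card : ℝ) - 1 := by
      rw [hDc i hi]
      exact mul_pos hc hpos
    have h2 : 1 < (D ∩ S i).card := by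
      have : (1 : ℝ) < ((D ∩ S i).card : ℝ) := by linarith
      exact_mod_cast this
    have h3 : (D ∩ S i).card ≤ (S i).card := card_le_card inter_subset_right
    have h4 := hcard i
    by_cases hk : (D ∩ S i).card - 1 < p
    · exfalso
      have hkN := hN1 ((D ∩ S i).card - 1) (by omega) hk
      have h5 : ell B D (fun b => (((D ∩ S i).card - 1 : ℕ) : ℤ) * v₀ b
          - ell B D v₀ * chi (S i) b) = 0 := by
        rw [hellsub, hellrow i hi]
        have : (((D ∩ S i).card - 1 : ℕ) : ℤ) = ((D ∩ S i).card : ℤ) - 1 := by omega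
        rw [this]
        ring
      have h6 := hgood _ ((h0.smul _).sub ((Rep.row hi).smul _)) h5
      refine hbad (Rep.of_mul hkN (by omega) ?_)
      exact (h6.add ((Rep.row hi).smul (ell B D v₀))).congr fun b _ => by ring
    · have h5 : D ∩ S i = S i := eq_of_subset_of_card_le inter_subset_right (by omega)
      refine ⟨?_, by rw [h5] at h2 hk; omega⟩
      rw [← h5]
      exact inter_subset_left
  have hcardD : ∀ i ∈ T, (p : ℤ) ∣ ((D ∩ S i).card : ℤ) - 1 := by
    intro i hi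
    by_cases h : ev δ (S i) = 0
    · have := hDc i hi
      rw [h, mul_zero] at this
      have h1 : ((D ∩ S i).card : ℝ) = 1 := by linarith
      have h2 : (D ∩ S i).card = 1 := by exact_mod_cast h1
      rw [h2]
      simp
    · obtain ⟨h1, h2⟩ := hrows i hi h
      rw [inter_eq_right.2 h1, h2]
      simp
  refine ⟨D, hDZ, hell0, hrows, fun v hv => ⟨fun hg => ?_, fun hd => ?_⟩⟩
  · obtain ⟨k, hk, hk0, z, hz⟩ := hg
    have h1 := ell_rep hB hDZ hz
    have h2 : (p : ℤ) ∣ (k : ℤ) * ell B D v := by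
      rw [h1]
      exact dvd_sum fun i hi => (hcardD i hi).mul_left _
    rcases (Nat.prime_iff_prime_int.1 hp).dvd_or_dvd h2 with h | h
    · exact absurd (Int.natCast_dvd_natCast.1 h) (hN2 k hk)
    · exact h
  · obtain ⟨q, hq⟩ := hd
    obtain ⟨h1, h2⟩ := hrows i0 hi0 hpos0.ne'
    have h3 : ell B D (chi (S i0)) = p := by
      rw [hellrow i0 hi0, inter_eq_right.2 h1, h2]
      push_cast
      ring
    have h4 := hgood (fun b => 1 * v b - q * chi (S i0) b)
      (((hv.smul 1)).sub ((Rep.row hi0).smul q)) (by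
        rw [hellsub, h3, hq]
        ring)
    exact (h4.add ((Rep.row hi0).smul q)).congr fun b _ => by ring

end Pool.Agent.Dyad4
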