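import Pool.Agent.Dyad4.StepA

/-!
# A bad pair of coordinates away from a given cover of a bad face
-/

set_option autoImplicit false
set_option linter.unusedSectionVars false
set_option linter.unusedVariables false

namespace Pool.Agent.Dyad4

open Finset Filter Topology

variable {ι α : Type*} [Fintype ι] [Fintype α] [DecidableEq ι] [DecidableEq α]

/-- difference of two unit vectors -/
def pair (e f : α) (a : α) : ℤ := (if a = e then 1 else 0) - (if a = f then 1 else 0)

lemma pr_pair (η : α → ℝ) (e f : α) : pr η (pair e f) = η e - η f := by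
  unfold pr pair
  have h : ∀ c : α, ∑ a, η a * (if a = c then (1 : ℝ) else 0) = η c := by
    intro c
    rw [sum_eq_single c]
    · simp
    · intro b _ hb
      simp [hb]
    · intro h
      exact absurd (mem_univ c) h
  rw [← h e, ← h f, ← sum_sub_distrib]
  refine sum_congr rfl fun a _ => ?_
  push_cast
  ring

variable {S : ι → Finset α} {T : Finset ι} {Z : Finset α} {x : α → ℝ} {N : Submonoid ℕ}

lemma Rep.cmb' {M : Submonoid ℕ} (z : ι → ℤ) : Rep M S T Z (cmb S T z) :=
  ⟨1, M.one_mem, one_pos, z, fun a _ => by simp⟩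

/-- the coordinates in `W` where `y` is minimal -/
noncomputable def argm (W : Finset α) (y : α → ℝ) : Finset α :=
  open Classical in W.filter fun a => ∀ b ∈ W, y a ≤ y b

lemma mem_argm {W : Finset α} {y : α → ℝ} {a : α} :
    a ∈ argm W y ↔ a ∈ W ∧ ∀ b ∈ W, y a ≤ y b := by
  unfold argm
  simp

/-- a point of the pattern with minimal set of minimal coordinates in `W`: functionals that vanish
on the rows are constant on this set -/
theorem exists_const (hx : Pat S T Z x) {W : Finset α} (hW : W.Nonempty) :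
    ∃ y, Pat S T Z y ∧ ∀ η : α → ℝ, (∀ a ∈ Z, η a = 0) → (∀ i ∈ T, ev η (S i) = 0) →
      ∀ a ∈ argm W y, ∀ b ∈ argm W y, η a = η b := by
  classical
  set f : (α → ℝ) → ℕ := fun y => (argm W y).card with hf
  obtain ⟨y, hy, hmin⟩ := (measure f).wf.has_min {y | Pat S T Z y} ⟨x, hx⟩
  have hyP : Pat S T Z y := hy
  refine ⟨y, hyP, fun η h1 h2 => ?_⟩
  by_contra hcon
  push Not at hcon
  obtain ⟨a, ha, b, hb, hab⟩ := hcon
  obtain ⟨a1, ha1, hmin1⟩ := exists_min_image (argm W y) η ⟨a, ha⟩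
  have hex : ∃ b1 ∈ argm W y, η a1 < η b1 := by
    by_contra hc
    push Not at hc
    exact hab ((le_antisymm (hc a ha) (hmin1 a ha)).trans (le_antisymm (hmin1 b hb) (hc b hb)))
  obtain ⟨b1, hb1, hlt⟩ := hex
  obtain ⟨ha1W, ha1m⟩ := mem_argm.1 ha1
  have hev1 : ∀ᶠ ε in 𝓝[>] (0 : ℝ), ∀ c ∈ W, c ∉ argm W y →
      0 < (y c - y a1) + ε * (η c - η a1) := by
    rw [Finset.eventually_all]
    intro c hc
    by_cases hcm : c ∈ argm W y
    · exact Eventually.of_forall fun ε h => absurd hcm h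
    · have h3 : y a1 < y c := by
        refine lt_of_le_of_ne (ha1m c hc) fun h => hcm (mem_argm.2 ⟨hc, fun b hb => ?_⟩)
        rw [← h]
        exact ha1m b hb
      filter_upwards [eventually_pos (d := η c - η a1) (sub_pos.2 h3)] with ε hε _
      exact hε
  obtain ⟨ε, ⟨⟨⟨hp1, hp2⟩, hp3⟩, hε⟩⟩ :=
    (((hyP.eventually_perturb η).and hev1).and self_mem_nhdsWithin).exists
  have hε0 : 0 < ε := hε
  have hpat : Pat S T Z (fun a => y a + ε * η a) :=
    ⟨fun a ha => by simp [hyP.zero a ha, h1 a ha], hp1, fun i hi => by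
      rw [ev_lin, hyP.tight i hi, h2 i hi]
      ring, hp2⟩
  apply hmin (fun a => y a + ε * η a) hpat
  show (argm W (fun a => y a + ε * η a)).card < (argm W y).card
  refine card_lt_card ?_
  have hsub : argm W (fun a => y a + ε * η a) ⊆ argm W y := by
    intro c hc
    obtain ⟨hcW, hcm⟩ := mem_argm.1 hc
    by_contra hcn
    have h3 := hcm a1 ha1W
    have h4 := hp3 c hcW hcn
    linarith
  rw [ssubset_iff_of_subset hsub]
  refine ⟨b1, hb1, fun h => ?_⟩
  have h3 := (mem_argm.1 h).2 a1 ha1W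
  have h4 := (mem_argm.1 hb1).2 a1 ha1W
  have h5 : ε * η a1 < ε * η b1 := mul_lt_mul_of_pos_left hlt hε0
  have h6 := ha1m b1 (mem_argm.1 hb1).1
  linarith

/-- Step B -/
theorem stepB {p : ℕ} (hp : 1 ≤ p) (hcard : ∀ i, (S i).card ≤ p + 1)
    (hT : ∀ i ∈ T, (S i).card = p + 1) (hTZ : ∀ i ∈ T, ∀ a ∈ S i, a ∉ Z)
    (hx : Pat S T Z x) {v₀ : α → ℤ} (h0 : Rep ⊤ S T Z v₀) (hbad : ¬ Rep N S T Z v₀)
    (IH : ∀ Z', Z ⊆ Z' → Z ≠ Z' → (∃ x', Pat S T Z' x') →
      ∀ u, Rep ⊤ S T Z' u → Rep N S T Z' u)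
    {B : Finset α} (hB : FCov S T Z B) :
    ∃ e f, e ≠ f ∧ e ∉ Z ∧ e ∉ B ∧ f ∉ B ∧ (∃ i ∈ T, e ∈ S i) ∧ Rep ⊤ S T Z (pair e f) ∧
      ¬ Rep N S T Z (pair e f) := by
  classical
  have hTne : T.Nonempty := by
    by_contra hcon
    rw [not_nonempty_iff_eq_empty] at hcon
    apply hbad
    refine Rep.of_supp fun a ha => ?_
    obtain ⟨k, hk, hk0, z, hz⟩ := h0
    have h1 := hz a ha
    rw [hcon] at h1
    simp only [cmb, sum_empty, mul_eq_zero] at h1
    rcases h1 with h1 | h1
    · omega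
    · exact h1
  obtain ⟨i0, hi0⟩ := hTne
  set U : Finset α := T.biUnion S with hU
  have hWne : (U \ B).Nonempty := by
    by_contra hcon
    rw [not_nonempty_iff_eq_empty, sdiff_eq_empty_iff_subset] at hcon
    have h1 : S i0 ⊆ B := fun a ha => hcon (mem_biUnion.2 ⟨i0, hi0, ha⟩)
    have h2 := hB.one i0 hi0
    rw [inter_eq_right.2 h1, hT i0 hi0] at h2
    omega
  obtain ⟨y, hy, hconst⟩ := exists_const hx hWne
  obtain ⟨a0, ha0W, ha0m⟩ := exists_min_image (U \ B) y hWne
  set Zs : Finset α := argm (U \ B) y with hZs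
  have ha0 : a0 ∈ Zs := mem_argm.2 ⟨ha0W, ha0m⟩
  have hUZ : ∀ a ∈ U, a ∉ Z := fun a ha => by
    obtain ⟨i, hi, hai⟩ := mem_biUnion.1 ha
    exact hTZ i hi a hai
  set μ : ℝ := y a0 with hμ
  have hμ0 : 0 < μ := hy.pos a0 (hUZ a0 (mem_sdiff.1 ha0W).1)
  have hZsμ : ∀ a ∈ Zs, y a = μ := fun a ha =>
    le_antisymm ((mem_argm.1 ha).2 a0 ha0W) (ha0m a (mem_argm.1 ha).1)
  have hZsU : ∀ a ∈ Zs, a ∈ U ∧ a ∉ B := fun a ha => mem_sdiff.1 (mem_argm.1 ha).1
  -- the new point
  have hpat : Pat S T (Z ∪ Zs) (fun a => (y a + ((p : ℝ) + 1) * μ * (if a ∈ B then 1 else 0))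
      + (-μ) * (if a ∈ U then 1 else 0)) := by
    have hevf : ∀ i, ev (fun a => (y a + ((p : ℝ) + 1) * μ * (if a ∈ B then 1 else 0))
        + (-μ) * (if a ∈ U then 1 else 0)) (S i)
        = ev y (S i) + ((p : ℝ) + 1) * μ * ((B ∩ S i).card : ℝ) - μ * ((U ∩ S i).card : ℝ) := by
      intro i
      rw [ev_lin, ev_lin, ev_ind, ev_ind]
      ring
    refine ⟨fun a ha => ?_, fun a ha => ?_, fun i hi => ?_, fun i hi => ?_⟩
    · rcases mem_union.1 ha with h | h
      · have h1 : a ∉ U := fun h' => hUZ a h' h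
        simp [hy.zero a h, hB.disj a h, h1]
      · simp [hZsμ a h, (hZsU a h).1, (hZsU a h).2]
    · rw [mem_union, not_or] at ha
      have h1 := hy.pos a ha.1
      by_cases haB : a ∈ B
      · have h2 : (0 : ℝ) ≤ (p : ℝ) * μ := by positivity
        by_cases haU : a ∈ U
        · simp only [haB, haU, if_true, mul_one]
          linarith
        · simp only [haB, haU, if_true, if_false, mul_one, mul_zero, add_zero]
          linarith
      · by_cases haU : a ∈ U
        · have h2 : μ < y a := by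
            refine lt_of_le_of_ne (ha0m a (mem_sdiff.2 ⟨haU, haB⟩)) fun h => ha.2 ?_
            refine mem_argm.2 ⟨mem_sdiff.2 ⟨haU, haB⟩, fun b hb => ?_⟩
            rw [← h]
            exact ha0m b hb
          simp only [haB, haU, if_true, if_false, mul_one, mul_zero, add_zero]
          linarith
        · simp only [haB, haU, if_false, mul_zero, add_zero]
          exact h1
    · rw [hevf, hy.tight i hi, hB.one i hi]
      have h1 : U ∩ S i = S i := inter_eq_right.2 fun a ha => mem_biUnion.2 ⟨i, hi, ha⟩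
      rw [h1, hT i hi]
      push_cast
      ring
    · rw [hevf]
      have h1 := hy.loose i hi
      have h2 : (1 : ℝ) ≤ ((B ∩ S i).card : ℝ) := by
        have := (hB.cov i).card_pos
        exact_mod_cast this
      have h3 : ((U ∩ S i).card : ℝ) ≤ (p : ℝ) + 1 := by
        have := (card_le_card (inter_subset_right : U ∩ S i ⊆ S i)).trans (hcard i)
        exact_mod_cast this
      have h4 : 0 < ((p : ℝ) + 1) * μ := by positivity
      have h5 : ((p : ℝ) + 1) * μ * 1 ≤ ((p : ℝ) + 1) * μ * ((B ∩ S i).card : ℝ) :=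
        mul_le_mul_of_nonneg_left h2 h4.le
      have h6 : μ * ((U ∩ S i).card : ℝ) ≤ μ * ((p : ℝ) + 1) :=
        mul_le_mul_of_nonneg_left h3 hμ0.le
      linarith
  have hne : Z ≠ Z ∪ Zs := fun h => by
    have h1 : a0 ∈ Z ∪ Zs := mem_union_right _ ha0
    rw [← h] at h1
    exact hUZ a0 (hZsU a0 ha0).1 h1
  obtain ⟨k, hk, hk0, z, hz⟩ := IH (Z ∪ Zs) subset_union_left hne ⟨_, hpat⟩ v₀
    (h0.mono_Z subset_union_left)
  set d : α → ℤ := fun a => (k : ℤ) * v₀ a - cmb S T z a with hd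
  have hd0 : ∀ a, a ∉ Z → a ∉ Zs → d a = 0 := fun a h1 h2 => by
    have h3 := hz a (by rw [mem_union]; tauto)
    simp only [hd]
    rw [h3, sub_self]
  have hdT : Rep ⊤ S T Z d := (h0.smul _).sub (Rep.cmb' z)
  have hdbad : ¬ Rep N S T Z d := fun h => by
    refine hbad (Rep.of_mul hk hk0 ?_)
    exact (h.add (Rep.cmb' z)).congr fun a _ => by simp [hd]
  -- the coordinates of `d` on `Zs` sum to zero
  have hsum : ∑ a ∈ Zs, d a = 0 := by
    set η : α → ℝ := fun a => y a + (-1) * (if a ∈ B then (1 : ℝ) else 0) with hη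
    have h1 : ∀ a ∈ Z, η a = 0 := fun a ha => by simp [hη, hy.zero a ha, hB.disj a ha]
    have h2 : ∀ i ∈ T, ev η (S i) = 0 := fun i hi => by
      rw [hη, ev_lin, ev_ind, hy.tight i hi, hB.one i hi]
      simp
    have h3 := hdT.pr_eq_zero h1 h2
    have h4 : pr η d = ∑ a ∈ Zs, μ * (d a : ℝ) := by
      unfold pr
      rw [← sum_subset (subset_univ Zs)]
      · refine sum_congr rfl fun a ha => ?_
        simp [hη, hZsμ a ha, (hZsU a ha).2]
      · intro a _ ha
        by_cases haZ : a ∈ Z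
        · rw [h1 a haZ, zero_mul]
        · rw [hd0 a haZ ha]
          simp
    rw [h4, ← mul_sum] at h3
    have h5 := (mul_eq_zero.1 h3).resolve_left hμ0.ne'
    exact_mod_cast h5
  have hpairT : ∀ e ∈ Zs, ∀ f ∈ Zs, Rep ⊤ S T Z (pair e f) := fun e he f hf =>
    rep_of_ann fun η h1 h2 => by
      rw [pr_pair, hconst η h1 h2 e he f hf, sub_self]
  have hex : ∃ e ∈ Zs, ¬ Rep N S T Z (pair e a0) := by
    by_contra hcon
    push Not at hcon
    apply hdbad
    have h1 := Rep.sum (M := N) (S := S) (T := T) (Z := Z) Zs (fun e a => d e * pair e a0 a)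
      fun e he => (hcon e he).smul _
    refine h1.congr fun a ha => ?_
    unfold pair
    simp only [mul_sub, sum_sub_distrib]
    have h2 : ∑ e ∈ Zs, d e * (if a = a0 then 1 else 0) = 0 := by
      rw [← sum_mul, hsum, zero_mul]
    rw [h2, sub_zero]
    by_cases haZ : a ∈ Zs
    · rw [sum_eq_single a]
      · simp
      · intro b _ hb
        simp [Ne.symm hb]
      · intro h
        exact absurd haZ h
    · rw [hd0 a ha haZ, sum_eq_zero]
      intro e he
      have : a ≠ e := fun h => haZ (h ▸ he)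
      simp [this]
  obtain ⟨e, he, hebad⟩ := hex
  refine ⟨e, a0, fun h => hebad ?_, hUZ e (hZsU e he).1, (hZsU e he).2, (hZsU a0 ha0).2, ?_,
    hpairT e he a0 ha0, hebad⟩
  · rw [h]
    exact Rep.of_supp fun a _ => by simp [pair]
  · obtain ⟨i, hi, h⟩ := mem_biUnion.1 (hZsU e he).1
    exact ⟨i, hi, h⟩

end Pool.Agent.Dyad4
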